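import Pool.Agent.Helper3K9.NT.Big

set_option autoImplicit false

open CategoryTheory AlgebraicGeometry

universe u v w

namespace Pool.Agent.Helper3K9.NT

open Pool.Agent.H914 VarClass Obj WeilCohomology Pool.Agent.Helper9K9.DT Pool.Agent.Helper9K9.LF

variable {k : Type u} [Field k] {𝒱 : VarClass k} {ops : CycleOps 𝒱}
variable {W : WeilCohomology.{u, v} ops} {X Y Z : 𝒱.Obj}

/-- Pull-back under `1 × f` is composition with the pull-back under `f`. -/
lemma corr_map_snd (f : Z ⟶ Y) (c : W.H (X.prod Y)) :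
    W.corr (W.map (Obj.lift (fst X Z) (snd X Z ≫ f)) c) =
      (W.map f).toLinearMap ∘ₗ W.corr c := by
  refine W.kunneth_induction (p := fun c =>
    W.corr (W.map (Obj.lift (fst X Z) (snd X Z ≫ f)) c) =
      (W.map f).toLinearMap ∘ₗ W.corr c) ?_ ?_ c
  · intro a b ha hb
    rw [map_add, corr_add, corr_add, ha, hb, LinearMap.comp_add]
  · intro i j a ha b hb
    have h1 : W.map (Obj.lift (fst X Z) (snd X Z ≫ f)) (W.map (fst X Y) a * W.map (snd X Y) b) =
        box W a (W.map f b) := by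
      rw [map_mul, ← W.map_comp, ← W.map_comp, Obj.lift_fst, Obj.lift_snd, W.map_comp]
      rfl
    rw [h1]
    change _ = (W.map f).toLinearMap ∘ₗ W.corr (box W a b)
    apply gr_ext (W.isInternal X)
    intro l x hx
    rw [LinearMap.comp_apply, corr_box (gr_le_par Z j (W.map_mem f hb)) (gr_le_par X l hx),
      corr_box (gr_le_par Y j hb) (gr_le_par X l hx), map_smul, map_smul]
    rfl

theorem act' : S_ACT.{u, v} := by
  intro k _ 𝒱 ops W X m p a
  rw [schur, corr_sum]
  refine Finset.sum_congr rfl fun σ _ => ?_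
  rw [corr_smul, corr_map_snd]
  rfl

theorem bz : S_ACT.{u, v} → S_PRM.{u, v} → S_BZ.{u, v} := by
  intro hACT hPRM k _ 𝒱 ops W X p a h0 h
  rw [nonzero_iff] at h0
  rw [signAlg_iff] at h ⊢
  obtain ⟨γ, hγ, eγ⟩ := h
  have h1 : W.corr (schur W X p 0 a) = a 1 • W.corr p := by
    rw [hACT W X 0 p a]
    have h2 : (Finset.univ : Finset (Equiv.Perm (Fin 1))) = {1} := by decide
    rw [h2, Finset.sum_singleton, (hPRM W X 0).1]
    apply LinearMap.ext
    intro x
    rfl
  have ha : a 1 ≠ 0 := by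
    intro ha
    apply h0
    rw [h1, ha]
    exact zero_smul _ _
  rw [h1] at eγ
  have key : ∀ γ' : W.H (X.prod X), γ' ∈ algSpan W (X.prod X) →
      W.corr γ' = a 1 • W.corr p * pe W X →
      ∃ δ ∈ algSpan W (X.prod X), W.corr δ = W.corr p * pe W X := by
    intro γ' hγ' e'
    refine ⟨(a 1)⁻¹ • γ', Submodule.smul_mem _ _ hγ', ?_⟩
    rw [corr_smul, e', smul_mul_assoc, smul_smul, inv_mul_cancel₀ ha, one_smul]
  exact key γ hγ eγ

end Pool.Agent.Helper3K9.NT
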