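import Pool.Agent.Helper3K9.NT.Basic2

/-!
# The contraction is the adjoint of `y ↦ y ⊗ 1`
-/

set_option autoImplicit false

open CategoryTheory AlgebraicGeometry

universe u v w

namespace Pool.Agent.Helper3K9.NT

open Pool.Agent.H914 VarClass Obj WeilCohomology Pool.Agent.Helper9K9.DT Pool.Agent.Helper9K9.LF

variable {k : Type u} [Field k] {𝒱 : VarClass k} {ops : CycleOps 𝒱}
variable {W : WeilCohomology.{u, v} ops} {X Y Z : 𝒱.Obj}

namespace AdjL

lemma gr_par_fin {i : ℕ} {a : W.H X} (ha : a ∈ W.gr X i) : ∃ p : Fin 2, a ∈ par W X p := by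
  rcases Nat.even_or_odd' i with ⟨j, hj | hj⟩
  · exact ⟨0, gr_mem_par (i := j) (by rwa [hj] at ha)⟩
  · exact ⟨1, gr_mem_par (i := j) (by rwa [hj] at ha)⟩

lemma tr_ne {p q : Fin 2} {x y : W.H X} (hx : x ∈ par W X p) (hy : y ∈ par W X q) (h : p ≠ q) :
    W.tr X (x * y) = 0 := by
  fin_cases p <;> fin_cases q
  · exact absurd rfl h
  · exact tr_eq_zero_par hx hy
  · exact tr_eq_zero_par' hx hy
  · exact absurd rfl h

lemma par_mod {n : ℕ} {x : W.H X} (hx : x ∈ par W X n) : x ∈ par W X (n % 2) := by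
  refine par_induction (P := fun x => x ∈ par W X (n % 2)) ?_ ?_ ?_ hx
  · intro i a ha
    refine gr_mem_par (i := i + n / 2) ?_
    rwa [show 2 * (i + n / 2) + n % 2 = 2 * i + n by omega]
  · exact Submodule.zero_mem _
  · intro a b ha hb; exact Submodule.add_mem _ ha hb

/-- The supertrace of a rank one operator. -/
lemma strace_box {p q : ℕ} {p' : Fin 2} (hp : p % 2 = p') {c d : W.H X}
    (hc : c ∈ par W X p') (hd : d ∈ par W X q)
    {z : Module.End W.K (W.H X)} (hz : Ev W X z) :
    LinearMap.trace W.K (W.H X) (sg W X * W.corr (box W c d) * z) =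
      (-1 : W.K) ^ (q * p + q) * W.tr X (c * z d) := by
  have h1 : sg W X * W.corr (box W c d) * z =
      LinearMap.smulRight ((-1 : W.K) ^ (q * p + q) • (W.tr X ∘ₗ LinearMap.mulLeft W.K c ∘ₗ z)) d := by
    have key : ∀ r : Fin 2, ∀ x ∈ par W X r, (sg W X * W.corr (box W c d) * z) x =
        LinearMap.smulRight ((-1 : W.K) ^ (q * p + q) •
          (W.tr X ∘ₗ LinearMap.mulLeft W.K c ∘ₗ z)) d x := by
      intro r x hx
      have hzx : z x ∈ par W X r := Ev.mem_par hz hx
      rw [Module.End.mul_apply, Module.End.mul_apply, corr_box hd hzx, map_smul, map_smul,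
        sg_par hd, LinearMap.smulRight_apply, LinearMap.smul_apply, LinearMap.comp_apply,
        LinearMap.comp_apply, LinearMap.mulLeft_apply, smul_smul, smul_smul, smul_eq_mul]
      by_cases hr : p' = r
      · congr 1
        have e : (-1 : W.K) ^ (q * (r : ℕ)) = (-1) ^ (q * p) := by
          rw [← hr, ← hp, pow_mul, pow_mul]
          rcases neg_one_pow_eq_or W.K q with h | h <;> rw [h]
          · simp
          · rw [← neg_one_pow_eq_pow_mod_two]
        rw [e, pow_add]
        ring
      · rw [tr_ne hc hzx hr]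
        simp
    exact ext_par (key 0) (key 1)
  rw [h1]
  have h2 := LinearMap.trace_smulRight (R := W.K) (M := W.H X)
    ((-1 : W.K) ^ (q * p + q) • (W.tr X ∘ₗ LinearMap.mulLeft W.K c ∘ₗ z)) d
  rw [h2]
  rfl

lemma base {Q : 𝒱.Obj} {p q s t : Fin 2} {a b : W.H X} {A B : W.H Q} (ha : a ∈ par W X p)
    (hb : b ∈ par W X q) (hA : A ∈ par W Q s) (hB : B ∈ par W Q t)
    {y : Module.End W.K (W.H X)} (hy : Ev W X y) :
    LinearMap.trace W.K (W.H X)
      (sg W X * W.corr (contr W X Q 1 (box W (box W a A) (box W b B))) * y) =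
      LinearMap.trace W.K (W.H (X.prod Q)) (sg W (X.prod Q) *
        W.corr (box W (box W a A) (box W b B)) * opT W y 1) := by
  have hyb : y b ∈ par W X q := Ev.mem_par hy hb
  have h1 := strace_box (p := (p : ℕ)) (q := (q : ℕ)) (p' := p) (by omega) (c := a) (d := b)
    ha hb hy
  have hu : box W a A ∈ par W (X.prod Q) ((⟨((p : ℕ) + s) % 2, by omega⟩ : Fin 2) : ℕ) :=
    par_mod (box_mem_par ha hA)
  have hv : box W b B ∈ par W (X.prod Q) ((q : ℕ) + t) := box_mem_par hb hB
  have hz : Ev W (X.prod Q) (opT W y 1) := ev_opT hy ev_one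
  have h2 := strace_box (p := (p : ℕ) + s) (q := (q : ℕ) + t)
    (p' := ⟨((p : ℕ) + s) % 2, by omega⟩) rfl hu hv hz
  rw [contr_box ha hb hA hB one_mem_par, corr_smul, mul_smul_comm, smul_mul_assoc, map_smul, h1,
    h2, opT_box, Module.End.one_apply, box_mul hA hyb, map_smul, tr_box, mul_one]
  by_cases h3 : p = q
  · by_cases h4 : s = t
    · subst h3; subst h4
      simp only [smul_eq_mul]
      fin_cases p <;> fin_cases s <;> simp <;> ring
    · rw [tr_ne hA hB h4]; simp
  · rw [tr_ne ha hyb h3]; simp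

end AdjL

open AdjL in
theorem adj : S_ADJ.{u, v} := by
  intro k _ 𝒱 ops W X Q Γ y hy
  refine W.kunneth_induction (p := fun Γ => LinearMap.trace W.K (W.H X)
    (sg W X * W.corr (contr W X Q 1 Γ) * y) = LinearMap.trace W.K (W.H (X.prod Q))
      (sg W (X.prod Q) * W.corr Γ * opT W y 1)) ?_ ?_ Γ
  · intro Γ Γ' h h'
    rw [map_add, corr_add, corr_add, mul_add, add_mul, map_add, mul_add, add_mul, map_add, h, h']
  · intro i0 j0 u _ v hv0
    clear hv0
    change LinearMap.trace W.K (W.H X) (sg W X * W.corr (contr W X Q 1 (box W u v)) * y) =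
      LinearMap.trace W.K (W.H (X.prod Q)) (sg W (X.prod Q) * W.corr (box W u v) * opT W y 1)
    revert v
    refine W.kunneth_induction (p := fun u => ∀ v : W.H (X.prod Q), LinearMap.trace W.K (W.H X)
      (sg W X * W.corr (contr W X Q 1 (box W u v)) * y) = LinearMap.trace W.K (W.H (X.prod Q))
        (sg W (X.prod Q) * W.corr (box W u v) * opT W y 1)) ?_ ?_ u
    · intro u u' h h' v
      rw [box_add_left, map_add, corr_add, corr_add, mul_add, add_mul, map_add, mul_add, add_mul,
        map_add, h v, h' v]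
    · intro i j a ha A hA v
      obtain ⟨p, ha'⟩ := gr_par_fin ha
      obtain ⟨s, hA'⟩ := gr_par_fin hA
      refine W.kunneth_induction (p := fun v => LinearMap.trace W.K (W.H X)
        (sg W X * W.corr (contr W X Q 1 (box W (box W a A) v)) * y) =
          LinearMap.trace W.K (W.H (X.prod Q))
            (sg W (X.prod Q) * W.corr (box W (box W a A) v) * opT W y 1)) ?_ ?_ v
      · intro v v' h h'
        rw [box_add_right, map_add, corr_add, corr_add, mul_add, add_mul, map_add, mul_add,
          add_mul, map_add, h, h']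
      · intro i' j' b hb B hB
        obtain ⟨q, hb'⟩ := gr_par_fin hb
        obtain ⟨t, hB'⟩ := gr_par_fin hB
        exact base ha' hb' hA' hB' hy

end Pool.Agent.Helper3K9.NT
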