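import Pool.Agent.Helper3K9.NT.Tpw

set_option autoImplicit false

open CategoryTheory AlgebraicGeometry

universe u v w

namespace Pool.Agent.Helper3K9.NT

open Pool.Agent.H914 VarClass Obj WeilCohomology Pool.Agent.Helper9K9.DT Pool.Agent.Helper9K9.LF

variable {k : Type u} [Field k] {𝒱 : VarClass k} {ops : CycleOps 𝒱}
variable {W : WeilCohomology.{u, v} ops} {X Y Z : 𝒱.Obj}

lemma BscL.signAlg_tpow (hFWD : S_FWD.{u, v}) {p : W.H (X.prod X)} (hp : IsAlg W (X.prod X) p)
    (h : SignAlg W X p) (m : ℕ) : SignAlg W (pw X m) (tpow W X p m) := by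
  induction m with
  | zero => exact h
  | succ m ih => exact hFWD W X (pw X m) p (tpow W X p m) hp (TpwL.tpow_mem hp m) h ih

theorem bsc : S_FWD.{u, v} → S_ACT.{u, v} → S_COMP.{u, v} → S_BSC.{u, v} := by
  intro hFWD hACT hCOMP k _ 𝒱 ops W X m p a hp h
  have h1 := BscL.signAlg_tpow hFWD hp h m
  rw [signAlg_iff] at h1 ⊢
  obtain ⟨γ, hγ, hγ'⟩ := h1
  have h2 : ∀ σ : Equiv.Perm (Fin (m + 1)), ∃ e ∈ algSpan W ((pw X m).prod (pw X m)),
      W.corr e = R W X m σ * (W.corr (tpow W X p m) * pe W (pw X m)) := by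
    intro σ
    obtain ⟨c, hc, hc'⟩ := exists_graph (W := W) (perm X m σ)
    obtain ⟨e, he, he'⟩ := hCOMP W (pw X m) (pw X m) (pw X m) γ c hγ hc
    refine ⟨e, he, ?_⟩
    rw [he', hc', hγ']
    rfl
  choose e he he' using h2
  refine ⟨∑ σ, a σ • e σ, Submodule.sum_mem _ fun σ _ => Submodule.smul_mem _ _ (he σ), ?_⟩
  rw [hACT, Finset.sum_mul]
  have h3 : W.corr (∑ σ, a σ • e σ) = ∑ σ, a σ • W.corr (e σ) := by
    induction (Finset.univ : Finset (Equiv.Perm (Fin (m + 1)))) using Finset.induction_on with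
    | empty => simp [corr_zero]
    | insert s t hs ih => rw [Finset.sum_insert hs, Finset.sum_insert hs, corr_add, corr_smul, ih]
  rw [h3]
  refine Finset.sum_congr rfl fun σ _ => ?_
  rw [he', smul_mul_assoc, mul_assoc]

end Pool.Agent.Helper3K9.NT
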