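import Pool.Agent.Helper3K9.NT.Basic2

set_option autoImplicit false

open CategoryTheory AlgebraicGeometry

universe u v w

namespace Pool.Agent.Helper3K9.NT

open Pool.Agent.H914 VarClass Obj WeilCohomology Pool.Agent.Helper9K9.DT Pool.Agent.Helper9K9.LF

variable {k : Type u} [Field k] {𝒱 : VarClass k} {ops : CycleOps 𝒱}
variable {W : WeilCohomology.{u, v} ops} {X Y Z : 𝒱.Obj}

/-- Morphisms to a product with the same components have the same pull-back in cohomology. -/
lemma map_ext_prod' {f g : Z ⟶ X.prod Y} (h1 : f ≫ fst X Y = g ≫ fst X Y)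
    (h2 : f ≫ snd X Y = g ≫ snd X Y) (c : W.H (X.prod Y)) : W.map f c = W.map g c := by
  refine W.kunneth_induction (p := fun c => W.map f c = W.map g c) ?_ ?_ c
  · intro a b ha hb
    rw [map_add, map_add, ha, hb]
  · intro i j a _ b _
    rw [map_mul, map_mul, ← W.map_comp, ← W.map_comp, ← W.map_comp, ← W.map_comp, h1, h2]

theorem con : S_CON.{u, v} := by
  intro k _ 𝒱 ops W X Y c d hd
  have e1 : W.map (cMap X Y ≫ Obj.lift (fst (X.prod Y) (X.prod Y) ≫ fst X Y)
      (snd (X.prod Y) (X.prod Y) ≫ fst X Y)) c = W.map (snd Y (X.prod X)) c := by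
    apply map_ext_prod'
    · rw [Category.assoc, Obj.lift_fst, ← Category.assoc, cMap, Obj.lift_fst, Obj.lift_fst]
    · rw [Category.assoc, Obj.lift_snd, ← Category.assoc, cMap, Obj.lift_snd, Obj.lift_fst]
  have e2 : W.map (cMap X Y ≫ Obj.lift (fst (X.prod Y) (X.prod Y) ≫ snd X Y)
      (snd (X.prod Y) (X.prod Y) ≫ snd X Y)) d = W.map (fst Y (X.prod X) ≫ diag Y) d := by
    apply map_ext_prod'
    · rw [Category.assoc, Obj.lift_fst, ← Category.assoc, cMap, Obj.lift_fst, Obj.lift_snd,
        Category.assoc, diag, Obj.lift_fst, Category.comp_id]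
    · rw [Category.assoc, Obj.lift_snd, ← Category.assoc, cMap, Obj.lift_snd, Obj.lift_snd,
        Category.assoc, diag, Obj.lift_snd, Category.comp_id]
  have e3 : contr W X Y 1 (tens W c d) = W.push (snd Y (X.prod X))
      (W.map (cMap X Y) (tens W c d) * W.map (fst Y (X.prod X)) 1) := rfl
  rw [e3, map_one, mul_one, tens, map_mul, ← W.map_comp, ← W.map_comp, e1, e2, W.map_comp]
  have h1 : W.map (diag Y) d ∈ par W Y 0 := par_map _ hd
  have h2 := par_zero_comm (par_map (fst Y (X.prod X)) h1) (W.map (snd Y (X.prod X)) c)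
  rw [← h2, W.push_snd, sg, trace_par_corr]

end Pool.Agent.Helper3K9.NT
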