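import Pool.Agent.Helper3K9.NT.Basic2

/-!
# Operators on one factor of a power, permutations of the factors
-/

set_option autoImplicit false

open CategoryTheory AlgebraicGeometry

universe u v w

namespace Pool.Agent.Helper3K9.NT

open Pool.Agent.H914 VarClass Obj WeilCohomology Pool.Agent.Helper9K9.DT Pool.Agent.Helper9K9.LF

variable {k : Type u} [Field k] {𝒱 : VarClass k} {ops : CycleOps 𝒱}
variable {W : WeilCohomology.{u, v} ops} {X Y Z : 𝒱.Obj}

namespace InsL

lemma ins_zero (j : Fin 1) (z : Module.End W.K (W.H X)) : ins W X 0 j z = z := rfl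

lemma ins_succ_zero (m : ℕ) (z : Module.End W.K (W.H X)) :
    ins W X (m + 1) 0 z = opT W (Y := pw X m) z 1 := rfl

lemma ins_succ_succ (m : ℕ) (i : Fin (m + 1)) (z : Module.End W.K (W.H X)) :
    ins W X (m + 1) i.succ z = opT W (X := X) (Y := pw X m) 1 (ins W X m i z) := rfl

lemma ins_add (m : ℕ) (j : Fin (m + 1)) (z z' : Module.End W.K (W.H X)) :
    ins W X m j (z + z') = ins W X m j z + ins W X m j z' := by
  induction m with
  | zero => rfl
  | succ m ih =>
    refine Fin.cases ?_ (fun i => ?_) j
    · rw [ins_succ_zero, ins_succ_zero, ins_succ_zero]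
      exact opT_add_left z z' 1
    · rw [ins_succ_succ, ins_succ_succ, ins_succ_succ, ih i]
      exact opT_add_right 1 _ _

lemma ins_smul (m : ℕ) (j : Fin (m + 1)) (a : W.K) (z : Module.End W.K (W.H X)) :
    ins W X m j (a • z) = a • ins W X m j z := by
  induction m with
  | zero => rfl
  | succ m ih =>
    refine Fin.cases ?_ (fun i => ?_) j
    · rw [ins_succ_zero, ins_succ_zero]
      exact opT_smul_left a z 1
    · rw [ins_succ_succ, ins_succ_succ, ih i]
      exact opT_smul_right a 1 _

lemma ins_one (m : ℕ) (j : Fin (m + 1)) :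
    ins W X m j (1 : Module.End W.K (W.H X)) = 1 := by
  induction m with
  | zero => rfl
  | succ m ih =>
    refine Fin.cases ?_ (fun i => ?_) j
    · rw [ins_succ_zero]; exact opT_one
    · rw [ins_succ_succ, ih i]; exact opT_one

lemma ins_mul (m : ℕ) (j : Fin (m + 1)) (z z' : Module.End W.K (W.H X)) :
    ins W X m j (z * z') = ins W X m j z * ins W X m j z' := by
  induction m with
  | zero => rfl
  | succ m ih =>
    refine Fin.cases ?_ (fun i => ?_) j
    · rw [ins_succ_zero, ins_succ_zero, ins_succ_zero]
      refine Eq.trans ?_ (opT_mul z z' (1 : Module.End W.K (W.H (pw X m))) 1).symm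
      rw [one_mul]
    · rw [ins_succ_succ, ins_succ_succ, ins_succ_succ, ih i]
      refine Eq.trans ?_ (opT_mul (1 : Module.End W.K (W.H X)) 1 (ins W X m i z)
        (ins W X m i z')).symm
      rw [one_mul]

lemma ins_comm (m : ℕ) (a b : Fin (m + 1)) (h : a ≠ b) (y z : Module.End W.K (W.H X)) :
    ins W X m a y * ins W X m b z = ins W X m b z * ins W X m a y := by
  induction m with
  | zero => exact absurd (Fin.ext (by omega) : a = b) h
  | succ m ih =>
    revert h
    refine Fin.cases ?_ (fun i => ?_) a <;> refine Fin.cases ?_ (fun l => ?_) b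
    · intro h; exact absurd rfl h
    · intro _
      rw [ins_succ_zero, ins_succ_succ]
      refine (opT_mul y 1 (1 : Module.End W.K (W.H (pw X m))) _).trans
        (Eq.trans ?_ (opT_mul (1 : Module.End W.K (W.H X)) y _ 1).symm)
      rw [one_mul, one_mul, mul_one, mul_one]
    · intro _
      rw [ins_succ_zero, ins_succ_succ]
      refine (opT_mul (1 : Module.End W.K (W.H X)) z _ 1).trans
        (Eq.trans ?_ (opT_mul z 1 (1 : Module.End W.K (W.H (pw X m))) _).symm)
      rw [one_mul, one_mul, mul_one, mul_one]
    · intro h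
      rw [ins_succ_succ, ins_succ_succ]
      have h' : i ≠ l := fun e => h (by rw [e])
      refine (opT_mul (1 : Module.End W.K (W.H X)) 1 _ _).trans
        (Eq.trans ?_ (opT_mul (1 : Module.End W.K (W.H X)) 1 _ _).symm)
      rw [ih i l h']

lemma ins_ev (m : ℕ) (j : Fin (m + 1)) (z : Module.End W.K (W.H X)) (hz : Ev W X z) :
    Ev W (pw X m) (ins W X m j z) := by
  induction m with
  | zero => exact hz
  | succ m ih =>
    refine Fin.cases ?_ (fun i => ?_) j
    · rw [ins_succ_zero]; exact ev_opT (Y := pw X m) hz ev_one
    · rw [ins_succ_succ]; exact ev_opT (Y := pw X m) ev_one (ih i)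

/-- The operator on one factor as an algebra homomorphism. -/
noncomputable def insA (W : WeilCohomology.{u, v} ops) (X : 𝒱.Obj) (m : ℕ) (j : Fin (m + 1)) :
    Module.End W.K (W.H X) →ₐ[W.K] Module.End W.K (W.H (pw X m)) :=
  AlgHom.ofLinearMap
    { toFun := fun z => ins W X m j z
      map_add' := ins_add m j
      map_smul' := ins_smul m j } (ins_one m j) (ins_mul m j)

end InsL

open InsL

theorem ina : S_INA.{u, v} := by
  intro k _ 𝒱 ops W X m
  exact ⟨⟨insA W X m, fun _ _ => rfl⟩, fun a b h y z => ins_comm m a b h y z,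
    fun j z hz => ins_ev m j z hz⟩

theorem ine : S_INE.{u, v} := by
  intro k _ 𝒱 ops W X m
  induction m with
  | zero =>
    intro j z a
    have hj : j = 0 := Fin.ext (by omega)
    subst hj
    have e1 := ext_zero (W := W) (X := X) a
    have e2 := ext_zero (W := W) (X := X) (Function.update a 0 (z (a 0)))
    refine (congrArg z e1).trans (Eq.trans ?_ e2.symm)
    rw [Function.update_self]
  | succ m ih =>
    intro j z a
    rw [ext_succ, ext_succ]
    refine Fin.cases ?_ (fun i => ?_) j
    · rw [ins_succ_zero, Function.update_self]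
      refine (opT_box (Y := pw X m) z 1 _ _).trans ?_
      rw [Module.End.one_apply]
      congr 2
    · rw [ins_succ_succ]
      refine (opT_box (Y := pw X m) 1 _ _ _).trans ?_
      rw [Module.End.one_apply, ih i z fun l => a l.succ]
      congr 2
      funext l
      by_cases h : l = i
      · subst h
        rw [Function.update_self, Function.update_self]
      · rw [Function.update_of_ne h, Function.update_of_ne fun e => h (Fin.succ_injective _ e)]

namespace PermL

lemma toPw_pr (m : ℕ) (f : Fin (m + 1) → (Y ⟶ X)) (i : Fin (m + 1)) :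
    toPw m f ≫ pr X m i = f i := by
  induction m with
  | zero =>
    have hi : i = 0 := Fin.ext (by omega)
    subst hi
    exact Category.comp_id _
  | succ m ih =>
    refine Fin.cases ?_ (fun l => ?_) i
    · exact Obj.lift_fst _ _
    · have h1 : (Obj.lift (f 0) (toPw m fun i => f i.succ) : Y ⟶ X.prod (pw X m)) ≫
          snd X (pw X m) = toPw m fun i => f i.succ := Obj.lift_snd _ _
      have h2 : (Obj.lift (f 0) (toPw m fun i => f i.succ) : Y ⟶ X.prod (pw X m)) ≫
          (snd X (pw X m) ≫ pr X m l) = f l.succ := by
        rw [← Category.assoc, h1]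
        exact ih (fun i => f i.succ) l
      exact h2

lemma perm_pr (m : ℕ) (σ : Equiv.Perm (Fin (m + 1))) (i : Fin (m + 1)) :
    perm X m σ ≫ pr X m i = pr X m (σ i) := toPw_pr m _ i

end PermL

open PermL

/-- The external products of homogeneous classes span. -/
theorem spn' : S_SPN.{u, v} := by
  intro k _ 𝒱 ops W X m V _ _ L L' h
  induction m with
  | zero =>
    apply ext_par
    · intro x hx
      have h1 := h (fun _ => 0) (fun _ => x) (fun _ => hx)
      have e1 := ext_zero (W := W) (X := X) fun _ => x
      exact (congrArg L e1).symm.trans (h1.trans (congrArg L' e1))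
    · intro x hx
      have h1 := h (fun _ => 1) (fun _ => x) (fun _ => hx)
      have e1 := ext_zero (W := W) (X := X) fun _ => x
      exact (congrArg L e1).symm.trans (h1.trans (congrArg L' e1))
  | succ m ih =>
    apply box_ext_par (X := X) (Y := pw X m)
    intro p q x hx y _
    have h1 : L ∘ₗ (LinearMap.mulLeft W.K (W.map (fst X (pw X m)) x)) ∘ₗ
        (W.map (snd X (pw X m))).toLinearMap =
        L' ∘ₗ (LinearMap.mulLeft W.K (W.map (fst X (pw X m)) x)) ∘ₗ
        (W.map (snd X (pw X m))).toLinearMap := by
      apply ih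
      intro π a ha
      have h2 := h (Fin.cons p π) (Fin.cons x a) (fun i => by
        refine Fin.cases ?_ (fun l => ?_) i
        · simpa using hx
        · simpa using ha l)
      rw [ext_succ] at h2
      simp only [Fin.cons_zero, Fin.cons_succ] at h2
      exact h2
    exact congrArg (fun T => T y) h1

theorem prm : S_PRM.{u, v} := by
  intro k _ 𝒱 ops W X m
  have key : ∀ (σ : Equiv.Perm (Fin (m + 1))) (a : Fin (m + 1) → W.H X),
      R W X m σ (ext W X a) = (List.ofFn fun i => W.map (pr X m (σ i)) (a i)).prod := by
    intro σ a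
    change W.map (perm X m σ) (ext W X a) = _
    rw [map_ext_prod]
    congr 2
    funext i
    rw [perm_pr]
  refine ⟨?_, ?_, fun σ => ev_map _, key⟩
  · apply spn'
    intro π a _
    rw [key]
    rfl
  · intro σ τ
    apply spn'
    intro π a _
    rw [Module.End.mul_apply, key, key]
    change _ = W.map (perm X m σ) _
    rw [map_list_prod, List.map_ofFn]
    congr 2
    funext i
    change _ = W.map (perm X m σ) (W.map (pr X m (τ i)) (a i))
    rw [← W.map_comp, perm_pr]
    rfl

end Pool.Agent.Helper3K9.NT
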