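import Pool.Agent.Helper3K9.NT.Basic2

set_option autoImplicit false

open CategoryTheory AlgebraicGeometry

universe u v w

namespace Pool.Agent.Helper3K9.NT

open Pool.Agent.H914 VarClass Obj WeilCohomology Pool.Agent.Helper9K9.DT Pool.Agent.Helper9K9.LF

variable {k : Type u} [Field k] {𝒱 : VarClass k} {ops : CycleOps 𝒱}

/-- Every class with a parity is even or odd. -/
lemma PinL.par_mod {W : WeilCohomology.{u, v} ops} {X : 𝒱.Obj} {r : ℕ} {z : W.H X}
    (hz : z ∈ par W X r) : z ∈ par W X ((⟨r % 2, Nat.mod_lt _ two_pos⟩ : Fin 2) : ℕ) := by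
  apply mem_par_of_sg
  rw [sg_par hz]
  congr 1
  rcases Nat.even_or_odd r with h | h
  · simp [h.neg_one_pow, Nat.even_iff.1 h]
  · simp [h.neg_one_pow, Nat.odd_iff.1 h]

theorem pin : S_RSG.{u, v} → S_INE.{u, v} → S_SPN.{u, v} → S_PIN.{u, v} := by
  intro hRSG hINE hSPN k _ 𝒱 ops W X m σ j z hz
  refine hSPN W X m _ (R W X m σ * ins W X m j z) (ins W X m (σ j) z * R W X m σ) ?_
  intro π a ha
  obtain ⟨κ, hκ⟩ := hRSG W X m (fun i => ((⟨π i % 2, Nat.mod_lt _ two_pos⟩ : Fin 2) : ℕ)) σ
  have ha' : ∀ i, a i ∈ par W X ((⟨π i % 2, Nat.mod_lt _ two_pos⟩ : Fin 2) : ℕ) :=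
    fun i => PinL.par_mod (ha i)
  rw [Module.End.mul_apply, Module.End.mul_apply, hINE, hκ a ha', map_smul, hINE,
    hκ (Function.update a j (z (a j)))]
  · congr 2
    funext i
    by_cases h : i = σ j
    · subst h
      rw [Function.update_self, Equiv.symm_apply_apply, Function.update_self]
    · have h1 : σ.symm i ≠ j := fun h2 => h (by rw [← h2, Equiv.apply_symm_apply])
      rw [Function.update_of_ne h, Function.update_of_ne h1]
  · intro i
    by_cases h : i = j
    · subst h
      rw [Function.update_self]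
      exact hz.mem_par (ha' i)
    · rw [Function.update_of_ne h]
      exact ha' i

end Pool.Agent.Helper3K9.NT
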