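import Pool.Agent.Helper3K9.NT.Basic2

set_option autoImplicit false

open CategoryTheory AlgebraicGeometry

universe u v w

namespace Pool.Agent.Helper3K9.NT

open Pool.Agent.H914 VarClass Obj WeilCohomology Pool.Agent.Helper9K9.DT Pool.Agent.Helper9K9.LF

variable {k : Type u} [Field k] {𝒱 : VarClass k} {ops : CycleOps 𝒱}
variable {W : WeilCohomology.{u, v} ops}

lemma rel_list (Y : 𝒱.Obj) {n : ℕ} (π : Fin n → ℕ) {l l' : List (Fin n)} (h : l.Perm l') :
    ∃ κ : W.K, ∀ x : Fin n → W.H Y, (∀ i, x i ∈ par W Y (π i)) →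
      (l.map x).prod = κ • (l'.map x).prod := by
  induction h with
  | nil => exact ⟨1, fun x _ => by simp⟩
  | cons a _ ih =>
    obtain ⟨κ, hκ⟩ := ih
    refine ⟨κ, fun x hx => ?_⟩
    rw [List.map_cons, List.prod_cons, hκ x hx, List.map_cons, List.prod_cons, mul_smul_comm]
  | swap a b l =>
    refine ⟨(-1 : W.K) ^ (π b * π a), fun x hx => ?_⟩
    rw [List.map_cons, List.map_cons, List.prod_cons, List.prod_cons, List.map_cons, List.map_cons,
      List.prod_cons, List.prod_cons, ← mul_assoc, ← mul_assoc, par_comm (hx b) (hx a),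
      smul_mul_assoc]
  | trans _ _ ih ih' =>
    obtain ⟨κ, hκ⟩ := ih
    obtain ⟨κ', hκ'⟩ := ih'
    exact ⟨κ * κ', fun x hx => by rw [hκ x hx, hκ' x hx, smul_smul]⟩

theorem rel : S_REL.{u, v} := by
  intro k _ 𝒱 ops W Y n π σ
  have h : (List.ofFn fun i => σ i).Perm (List.ofFn fun i : Fin n => i) := by
    have h1 : (List.ofFn fun i => σ i) = (List.finRange n).map σ := (List.ofFn_eq_map)
    have h2 : (List.ofFn fun i : Fin n => i) = List.finRange n := by
      rw [List.ofFn_eq_map, List.map_id']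
    rw [h1, h2]
    exact Equiv.Perm.map_finRange_perm σ
  obtain ⟨κ, hκ⟩ := rel_list (W := W) Y π h
  refine ⟨κ, fun x hx => ?_⟩
  have := hκ x hx
  rwa [List.map_ofFn, List.map_ofFn] at this

end Pool.Agent.Helper3K9.NT
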