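import Pool.Agent.Helper3K9.NT.Basic2

set_option autoImplicit false

open CategoryTheory AlgebraicGeometry

universe u v w

namespace Pool.Agent.Helper3K9.NT

open Pool.Agent.H914 VarClass Obj WeilCohomology Pool.Agent.Helper9K9.DT Pool.Agent.Helper9K9.LF

variable {k : Type u} [Field k] {𝒱 : VarClass k} {ops : CycleOps 𝒱}

theorem rsg : S_REL.{u, v} → S_PRM.{u, v} → S_RSG.{u, v} := by
  intro hREL hPRM k _ 𝒱 ops W X m π σ
  obtain ⟨κ, hκ⟩ := hREL W (pw X m) (m + 1) (fun i => π (σ.symm i)) σ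
  refine ⟨κ, fun a ha => ?_⟩
  rw [(hPRM W X m).2.2.2 σ a]
  have h := hκ (fun i => W.map (pr X m i) (a (σ.symm i))) (fun i => par_map _ (ha _))
  simp only [Equiv.symm_apply_apply] at h
  exact h

end Pool.Agent.Helper3K9.NT
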