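import Pool.Agent.Helper3K9.NT.Pin

set_option autoImplicit false

open CategoryTheory AlgebraicGeometry

universe u v w

namespace Pool.Agent.Helper3K9.NT

open Pool.Agent.H914 VarClass Obj WeilCohomology Pool.Agent.Helper9K9.DT Pool.Agent.Helper9K9.LF

variable {k : Type u} [Field k] {𝒱 : VarClass k} {ops : CycleOps 𝒱}
variable {W : WeilCohomology.{u, v} ops} {X Y Z : 𝒱.Obj}

/-- Pull-backs are induced by algebraic classes. -/
lemma SwapL.exists_graph2 (f : Y ⟶ X) : ∃ c ∈ algSpan W (X.prod Y), W.corr c = (W.map f).toLinearMap := by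
  refine ⟨_, algSpan_gen (p := X.dim) (ops.push_mem _ Y.V.fundCycle_mem ?_),
    Pool.Agent.W534.corr_graph (W := W) f⟩
  rw [dim_prod, zero_add]

/-- the exchange of the factors -/
noncomputable def SwapL.sw (X Y : 𝒱.Obj) : Y.prod X ⟶ X.prod Y := Obj.lift (snd Y X) (fst Y X)

lemma SwapL.map_sw {i j : ℕ} {x : W.H X} {y : W.H Y} (hx : x ∈ par W X i) (hy : y ∈ par W Y j) :
    W.map (SwapL.sw X Y) (box W x y) = (-1 : W.K) ^ (i * j) • box W y x := by
  rw [box, map_mul, ← W.map_comp, ← W.map_comp, SwapL.sw, Obj.lift_fst, Obj.lift_snd, box]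
  exact par_comm (par_map _ hx) (par_map _ hy)

lemma SwapL.pe_map_comm (f : Y ⟶ X) :
    pe W Y ∘ₗ (W.map f).toLinearMap = (W.map f).toLinearMap ∘ₗ pe W X := by
  apply ext_par
  · intro x hx
    change pe W Y (W.map f x) = W.map f (pe W X x)
    rw [pe_even hx, pe_even (par_map f hx)]
  · intro x hx
    change pe W Y (W.map f x) = W.map f (pe W X x)
    rw [pe_odd hx, pe_odd (par_map f hx), map_zero]

theorem swap : S_COMP.{u, v} → S_TEN.{u, v} → S_SWAP.{u, v} := by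
  intro hCOMP hTEN k _ 𝒱 ops W X Y p q hp hq h
  rw [signAlg_iff] at h ⊢
  obtain ⟨γ, hγ, hγ'⟩ := h
  obtain ⟨c, hc, hc'⟩ := SwapL.exists_graph2 (W := W) (SwapL.sw Y X)
  obtain ⟨d, hd, hd'⟩ := SwapL.exists_graph2 (W := W) (SwapL.sw X Y)
  obtain ⟨e, he, he'⟩ := hCOMP W (Y.prod X) (X.prod Y) (X.prod Y) c γ hc hγ
  obtain ⟨f, hf, hf'⟩ := hCOMP W (Y.prod X) (X.prod Y) (Y.prod X) e d he hd
  refine ⟨f, hf, ?_⟩
  rw [hf', he', hd', hc', hγ']
  have h1 : W.corr (tens W q p) = (W.map (SwapL.sw X Y)).toLinearMap ∘ₗ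
      (W.corr (tens W p q) ∘ₗ (W.map (SwapL.sw Y X)).toLinearMap) := by
    rw [hTEN W Y X q p (algSpan_le_par hq) (algSpan_le_par hp),
      hTEN W X Y p q (algSpan_le_par hp) (algSpan_le_par hq)]
    apply box_ext_par
    intro i j y hy x hx
    have hy' := PinL.par_mod hy
    have hx' := PinL.par_mod hx
    generalize (⟨i % 2, Nat.mod_lt _ two_pos⟩ : Fin 2) = i' at hy'
    generalize (⟨j % 2, Nat.mod_lt _ two_pos⟩ : Fin 2) = j' at hx'
    change opT W (W.corr q) (W.corr p) (box W y x) = W.map (SwapL.sw X Y)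
      (opT W (W.corr p) (W.corr q) (W.map (SwapL.sw Y X) (box W y x)))
    rw [opT_box, SwapL.map_sw hy' hx', map_smul, opT_box, map_smul,
      SwapL.map_sw ((ev_corr_alg hp).mem_par hx') ((ev_corr_alg hq).mem_par hy'), smul_smul,
      mul_comm (j' : ℕ) (i' : ℕ), ← mul_pow, neg_one_mul, neg_neg, one_pow, one_smul]
  rw [h1]
  apply LinearMap.ext
  intro t
  change W.map (SwapL.sw X Y) (W.corr (tens W p q) (pe W (X.prod Y) (W.map (SwapL.sw Y X) t))) =
    W.map (SwapL.sw X Y) (W.corr (tens W p q) (W.map (SwapL.sw Y X) (pe W (Y.prod X) t)))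
  have h2 : pe W (X.prod Y) (W.map (SwapL.sw Y X) t) = W.map (SwapL.sw Y X) (pe W (Y.prod X) t) :=
    congrArg (fun L => L t) (SwapL.pe_map_comm (W := W) (SwapL.sw Y X))
  rw [h2]

end Pool.Agent.Helper3K9.NT
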