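import Pool.Agent.Helper3K9.NT.Pin

set_option autoImplicit false

open CategoryTheory AlgebraicGeometry

universe u v w

namespace Pool.Agent.Helper3K9.NT

open Pool.Agent.H914 VarClass Obj WeilCohomology Pool.Agent.Helper9K9.DT Pool.Agent.Helper9K9.LF

variable {k : Type u} [Field k] {𝒱 : VarClass k} {ops : CycleOps 𝒱}

theorem tpi : S_TPW.{u, v} → S_INE.{u, v} → S_SPN.{u, v} → S_RSG.{u, v} → S_TPI.{u, v} := by
  intro hTPW hINE hSPN hRSG k _ 𝒱 ops W X m p hp
  rw [isMotive_iff] at hp
  obtain ⟨hp, hpp⟩ := hp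
  have hpp' : ∀ x, W.corr p (W.corr p x) = W.corr p x := fun x => congrArg (fun L => L x) hpp
  have hT := (hTPW W X m p hp).2
  have hev : Ev W X (W.corr p) := ev_corr_alg hp
  refine ⟨fun j => ⟨?_, ?_⟩, fun σ => ?_, fun j z hz => ?_⟩
  · refine hSPN W X m _ _ _ ?_
    intro π a _
    rw [Module.End.mul_apply, hINE, hT, hT]
    congr 1
    funext i
    by_cases h : i = j
    · subst h
      rw [Function.update_self, hpp']
    · rw [Function.update_of_ne h]
  · refine hSPN W X m _ _ _ ?_
    intro π a _
    rw [Module.End.mul_apply, hT, hINE]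
    congr 1
    funext i
    by_cases h : i = j
    · subst h
      rw [Function.update_self, hpp']
    · rw [Function.update_of_ne h]
  · refine hSPN W X m _ (R W X m σ * W.corr (tpow W X p m))
      (W.corr (tpow W X p m) * R W X m σ) ?_
    intro π a ha
    obtain ⟨κ, hκ⟩ := hRSG W X m (fun i => ((⟨π i % 2, Nat.mod_lt _ two_pos⟩ : Fin 2) : ℕ)) σ
    have ha' : ∀ i, a i ∈ par W X ((⟨π i % 2, Nat.mod_lt _ two_pos⟩ : Fin 2) : ℕ) :=
      fun i => PinL.par_mod (ha i)
    rw [Module.End.mul_apply, Module.End.mul_apply, hT, hκ a ha', map_smul, hT,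
      hκ (fun i => W.corr p (a i)) fun i => hev.mem_par (ha' i)]
  · refine hSPN W X m _ (W.corr (tpow W X p m) * ins W X m j z)
      (ins W X m j z * W.corr (tpow W X p m)) ?_
    intro π a _
    rw [Module.End.mul_apply, Module.End.mul_apply, hINE, hT, hT, hINE]
    congr 1
    funext i
    by_cases h : i = j
    · subst h
      rw [Function.update_self, Function.update_self]
      exact congrArg (fun L => L (a i)) (show W.corr p * z = z * W.corr p from hz)
    · rw [Function.update_of_ne h, Function.update_of_ne h]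

end Pool.Agent.Helper3K9.NT
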