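import Pool.Agent.Helper3K9.NT.Basic2

set_option autoImplicit false

open CategoryTheory AlgebraicGeometry

universe u v w

namespace Pool.Agent.Helper3K9.NT

open Pool.Agent.H914 VarClass Obj WeilCohomology Pool.Agent.Helper9K9.DT Pool.Agent.Helper9K9.LF

variable {k : Type u} [Field k] {𝒱 : VarClass k} {ops : CycleOps 𝒱}

lemma TpwL.tpow_mem {W : WeilCohomology.{u, v} ops} {X : 𝒱.Obj} {p : W.H (X.prod X)}
    (hp : p ∈ algSpan W (X.prod X)) (m : ℕ) :
    tpow W X p m ∈ algSpan W ((pw X m).prod (pw X m)) := by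
  induction m with
  | zero => exact hp
  | succ m ih => exact tens_mem (Y := pw X m) hp ih

theorem tpw : S_TEN.{u, v} → S_TPW.{u, v} := by
  intro hTEN k _ 𝒱 ops W X m p hp
  have hp' : p ∈ algSpan W (X.prod X) := hp
  refine ⟨TpwL.tpow_mem hp' m, ?_⟩
  induction m with
  | zero =>
    intro a
    rw [ext_zero, ext_zero]
    rfl
  | succ m ih =>
    intro a
    rw [ext_succ, ext_succ]
    have h1 := hTEN W X (pw X m) p (tpow W X p m) (algSpan_le_par hp')
      (algSpan_le_par (TpwL.tpow_mem hp' m))
    have h2 : W.corr (tens W (Y := pw X m) p (tpow W X p m))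
        (box W (a 0) (ext W X (m := m) fun i => a i.succ)) =
        box W (W.corr p (a 0)) (ext W X (m := m) fun i => W.corr p (a i.succ)) := by
      rw [h1, opT_box, ih]
    exact h2

end Pool.Agent.Helper3K9.NT
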