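import Pool.Agent.Helper3K9.NT.Dia
import Pool.Agent.Helper3K9.NT.Adj
import Pool.Agent.Helper3K9.NT.Bsc
import Pool.Agent.Helper3K9.NT.Cont
import Pool.Agent.Helper3K9.NT.Ine
import Pool.Agent.Helper3K9.NT.Pin
import Pool.Agent.Helper3K9.NT.Rel
import Pool.Agent.Helper3K9.NT.Rsg
import Pool.Agent.Helper3K9.NT.Swap
import Pool.Agent.Helper3K9.NT.Tpi
import Pool.Agent.Helper3K9.NT.Tpw
import Pool.Agent.Helper68K9.NT.Abs
import Pool.Agent.Helper68K9.NT.Ten

/-!
# All steps together
-/

set_option autoImplicit false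

universe u v w

namespace Pool.Agent.Helper3K9.NT

theorem final0 (abs : S_ABS.{v}) (ten : S_TEN.{u, v}) : S_FINAL.{u, v} :=
  fin ten con (swap comp ten) (bsc (fwd ten) act' comp)
    (big abs adj comp ina (pin (rsg rel prm) ine spn')
      (tpi (tpw ten) ine spn' (rsg rel prm)) act' prm (bz act' prm))

/-- **The final statement.** -/
theorem final : S_FINAL.{u, v} := final0 Pool.Agent.Helper68K9.NT.abs Pool.Agent.Helper68K9.NT.ten

end Pool.Agent.Helper3K9.NT
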