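import Pool.Agent.Helper3K9.NT.Stm

/-!
# The operators `f ⊗ g` on `H(X × Y)`: basic lemmas
-/

set_option autoImplicit false

open CategoryTheory AlgebraicGeometry

universe u v w

namespace Pool.Agent.Helper3K9.NT

open Pool.Agent.H914 VarClass Obj WeilCohomology Pool.Agent.Helper9K9.DT

variable {k : Type u} [Field k] {𝒱 : VarClass k} {ops : CycleOps 𝒱}
variable {W : WeilCohomology.{u, v} ops} {X Y Z : 𝒱.Obj}

lemma kun_tmul (x : W.H X) (y : W.H Y) : kun W X Y (x ⊗ₜ y) = box W x y := rfl

lemma kun_symm_box (x : W.H X) (y : W.H Y) : (kun W X Y).symm (box W x y) = x ⊗ₜ y := by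
  rw [← kun_tmul, LinearEquiv.symm_apply_apply]

lemma opT_box (f : Module.End W.K (W.H X)) (g : Module.End W.K (W.H Y)) (x : W.H X) (y : W.H Y) :
    opT W f g (box W x y) = box W (f x) (g y) := by
  change kun W X Y (TensorProduct.map f g ((kun W X Y).symm (box W x y))) = _
  rw [kun_symm_box, TensorProduct.map_tmul, kun_tmul]

/-- Linear maps from `H(X × Y)` which agree on the `box x y`, `x` and `y` homogeneous, are equal. -/
lemma box_ext {V : Type w} [AddCommGroup V] [Module W.K V] {L L' : W.H (X.prod Y) →ₗ[W.K] V}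
    (h : ∀ i j, ∀ x ∈ W.gr X i, ∀ y ∈ W.gr Y j, L (box W x y) = L' (box W x y)) : L = L' := by
  apply LinearMap.ext
  intro c
  refine W.kunneth_induction (p := fun c => L c = L' c) ?_ ?_ c
  · intro a b ha hb
    rw [map_add, map_add, ha, hb]
  · intro i j a ha b hb
    exact h i j a ha b hb

/-- The same with classes homogeneous for the parity. -/
lemma box_ext_par {V : Type w} [AddCommGroup V] [Module W.K V] {L L' : W.H (X.prod Y) →ₗ[W.K] V}
    (h : ∀ p q : ℕ, ∀ x ∈ par W X p, ∀ y ∈ par W Y q, L (box W x y) = L' (box W x y)) : L = L' :=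
  box_ext fun i j x hx y hy => h i j x (gr_le_par X i hx) y (gr_le_par Y j hy)

lemma opT_mul (f f' : Module.End W.K (W.H X)) (g g' : Module.End W.K (W.H Y)) :
    opT W f g * opT W f' g' = opT W (f * f') (g * g') := by
  apply box_ext
  intro i j x _ y _
  rw [Module.End.mul_apply, opT_box, opT_box, opT_box, Module.End.mul_apply, Module.End.mul_apply]

lemma opT_one : opT W (1 : Module.End W.K (W.H X)) (1 : Module.End W.K (W.H Y)) = 1 := by
  apply box_ext
  intro i j x _ y _
  rw [opT_box, Module.End.one_apply, Module.End.one_apply, Module.End.one_apply]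

lemma box_add_right (c : W.H X) (d d' : W.H Y) : box W c (d + d') = box W c d + box W c d' := by
  rw [box, box, box, map_add, mul_add]

lemma opT_add_left (f f' : Module.End W.K (W.H X)) (g : Module.End W.K (W.H Y)) :
    opT W (f + f') g = opT W f g + opT W f' g := by
  apply box_ext
  intro i j x _ y _
  rw [LinearMap.add_apply, opT_box, opT_box, opT_box, LinearMap.add_apply, box_add_left]

lemma opT_add_right (f : Module.End W.K (W.H X)) (g g' : Module.End W.K (W.H Y)) :
    opT W f (g + g') = opT W f g + opT W f g' := by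
  apply box_ext
  intro i j x _ y _
  rw [LinearMap.add_apply, opT_box, opT_box, opT_box, LinearMap.add_apply, box_add_right]

lemma opT_smul_left (a : W.K) (f : Module.End W.K (W.H X)) (g : Module.End W.K (W.H Y)) :
    opT W (a • f) g = a • opT W f g := by
  apply box_ext
  intro i j x _ y _
  rw [LinearMap.smul_apply, opT_box, opT_box, LinearMap.smul_apply, box_smul_left]

lemma opT_smul_right (a : W.K) (f : Module.End W.K (W.H X)) (g : Module.End W.K (W.H Y)) :
    opT W f (a • g) = a • opT W f g := by
  apply box_ext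
  intro i j x _ y _
  rw [LinearMap.smul_apply, opT_box, opT_box, LinearMap.smul_apply, box_smul_right]

lemma opT_zero_left (g : Module.End W.K (W.H Y)) :
    opT W (0 : Module.End W.K (W.H X)) g = 0 := by
  have := opT_smul_left (0 : W.K) (0 : Module.End W.K (W.H X)) g
  simpa using this

lemma opT_zero_right (f : Module.End W.K (W.H X)) :
    opT W f (0 : Module.End W.K (W.H Y)) = 0 := by
  have := opT_smul_right (0 : W.K) f (0 : Module.End W.K (W.H Y))
  simpa using this

lemma sg_gr {i : ℕ} {x : W.H X} (hx : x ∈ W.gr X i) : sg W X x = (-1 : W.K) ^ i • x :=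
  scal_apply (W.isInternal X) _ hx

lemma sg_par {p : ℕ} {x : W.H X} (hx : x ∈ par W X p) : sg W X x = (-1 : W.K) ^ p • x := by
  refine par_induction (P := fun x => sg W X x = (-1 : W.K) ^ p • x) ?_ ?_ ?_ hx
  · intro i a ha
    rw [sg_gr ha, pow_add, pow_mul]
    simp
  · simp
  · intro a b ha hb
    rw [map_add, ha, hb, smul_add]

lemma sg_mul_sg : sg W X * sg W X = 1 := par_mul_par (W.isInternal X)

lemma sg_sg (x : W.H X) : sg W X (sg W X x) = x := by
  rw [← Module.End.mul_apply, sg_mul_sg, Module.End.one_apply]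

lemma mem_par_of_sg {p : Fin 2} {x : W.H X} (h : sg W X x = (-1 : W.K) ^ (p : ℕ) • x) :
    x ∈ par W X p := by
  obtain ⟨y, hy, z, hz, rfl⟩ := par_split x
  rw [map_add, sg_par hy, sg_par hz] at h
  fin_cases p
  · have h1 : (2 : W.K) • z = 0 := by
      have h2 : y - z = y + z := by simpa [sub_eq_add_neg] using h
      have h3 : z + z = 0 := by
        have := sub_eq_iff_eq_add.1 h2
        have h4 : y + (z + z) = y + 0 := by rw [add_zero, ← add_assoc]; exact this.symm
        exact add_left_cancel h4
      rw [two_smul]; exact h3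
    have h2 : z = 0 := by
      rcases smul_eq_zero.1 h1 with h3 | h3
      · exact absurd h3 two_ne_zero
      · exact h3
    rw [h2, add_zero]; exact hy
  · have h1 : (2 : W.K) • y = 0 := by
      have h4 : y = -y := by simpa using h
      have h3 : y + y = 0 := by
        have h5 := add_neg_cancel y
        rwa [← h4] at h5
      rw [two_smul]; exact h3
    have h2 : y = 0 := by
      rcases smul_eq_zero.1 h1 with h3 | h3
      · exact absurd h3 two_ne_zero
      · exact h3
    rw [h2, zero_add]; exact hz

lemma hasParity_iff {p : Fin 2} {x : W.H X} : HasParity W X p x ↔ x ∈ par W X p := Iff.rfl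

lemma hasParity_iff_sg {p : Fin 2} {x : W.H X} :
    HasParity W X p x ↔ sg W X x = (-1 : W.K) ^ (p : ℕ) • x :=
  ⟨fun h => sg_par h, mem_par_of_sg⟩

lemma isAlg_iff {c : W.H X} : IsAlg W X c ↔ c ∈ algSpan W X := Iff.rfl

lemma act_eq (c : W.H (X.prod X)) (x : W.H X) : act W X c x = W.corr c x := rfl

lemma sg_prod : sg W (X.prod Y) = opT W (sg W X) (sg W Y) := by
  apply box_ext
  intro i j x hx y hy
  rw [opT_box, sg_gr hx, sg_gr hy, sg_gr (box_mem_gr hx hy), box_smul_left, box_smul_right,
    smul_smul, pow_add]

lemma ev_opT {f : Module.End W.K (W.H X)} {g : Module.End W.K (W.H Y)} (hf : Ev W X f)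
    (hg : Ev W Y g) : Ev W (X.prod Y) (opT W f g) := by
  have hf' : sg W X * f = f * sg W X := hf
  have hg' : sg W Y * g = g * sg W Y := hg
  change sg W (X.prod Y) * opT W f g = opT W f g * sg W (X.prod Y)
  rw [sg_prod, opT_mul, opT_mul, hf', hg']

lemma ev_one : Ev W X 1 := Commute.one_right _

lemma Ev.mem_par {f : Module.End W.K (W.H X)} (hf : Ev W X f) {p : Fin 2} {x : W.H X}
    (hx : x ∈ par W X p) : f x ∈ par W X p := by
  apply mem_par_of_sg
  have h : sg W X (f x) = f (sg W X x) := congrArg (fun L => L x) (show sg W X * f = f * sg W X from hf)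
  rw [h, sg_par hx, map_smul]

/-- The operators of even classes preserve the parity. -/
lemma ev_corr {c : W.H (X.prod X)} (hc : c ∈ par W (X.prod X) 0) : Ev W X (W.corr c) := by
  refine par_induction (P := fun c => Ev W X (W.corr c)) ?_ ?_ ?_ hc
  · intro i a ha
    rw [add_zero] at ha
    have h := W.corr_isHom (X := X) ha
    change sg W X * W.corr a = W.corr a * sg W X
    apply gr_ext (W.isInternal X)
    intro j x hx
    rw [Module.End.mul_apply, Module.End.mul_apply, sg_gr hx, map_smul]
    have h1 := h j x (by rw [grZ_natCast]; exact hx)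
    by_cases h0 : 0 ≤ (j : ℤ) + 2 * ((i : ℤ) - X.dim)
    · obtain ⟨l, hl⟩ := Int.eq_ofNat_of_zero_le h0
      rw [hl, grZ_natCast] at h1
      rw [sg_gr h1]
      congr 1
      rcases Nat.even_or_odd j with hj | hj
      · have : Even l := by
          have h2 : Even (l : ℤ) := by
            have h3 : Even ((j : ℤ) + 2 * ((i : ℤ) - X.dim)) :=
              (by exact_mod_cast hj : Even (j : ℤ)).add (even_two_mul _)
            rw [hl] at h3
            exact h3
          exact_mod_cast h2
        rw [hj.neg_one_pow, this.neg_one_pow]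
      · have : Odd l := by
          have h2 : Odd (l : ℤ) := by
            have h3 : Odd ((j : ℤ) + 2 * ((i : ℤ) - X.dim)) :=
              (by exact_mod_cast hj : Odd (j : ℤ)).add_even (even_two_mul _)
            rw [hl] at h3
            exact h3
          exact_mod_cast h2
        rw [hj.neg_one_pow, this.neg_one_pow]
    · rw [grZ_of_neg (by omega), Submodule.mem_bot] at h1
      rw [h1, map_zero, smul_zero]
  · rw [corr_zero]; exact Commute.zero_right _
  · intro a b ha hb
    rw [corr_add]; exact Commute.add_right ha hb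

lemma ev_corr_alg {c : W.H (X.prod X)} (hc : c ∈ algSpan W (X.prod X)) : Ev W X (W.corr c) :=
  ev_corr (algSpan_le_par hc)

lemma ev_map (f : X ⟶ X) : Ev W X (W.map f).toLinearMap := by
  change sg W X * (W.map f).toLinearMap = (W.map f).toLinearMap * sg W X
  apply gr_ext (W.isInternal X)
  intro j x hx
  rw [Module.End.mul_apply, Module.End.mul_apply, sg_gr hx, map_smul]
  exact sg_gr (W.map_mem f hx)

/-- The tensor product of algebraic classes is algebraic. -/
lemma tens_mem {c : W.H (X.prod X)} {d : W.H (Y.prod Y)} (hc : c ∈ algSpan W (X.prod X))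
    (hd : d ∈ algSpan W (Y.prod Y)) : tens W c d ∈ algSpan W ((X.prod Y).prod (X.prod Y)) :=
  algSpan_mul (algSpan_map _ hc) (algSpan_map _ hd)

lemma tens_add_left (c c' : W.H (X.prod X)) (d : W.H (Y.prod Y)) :
    tens W (c + c') d = tens W c d + tens W c' d := by
  rw [tens, tens, tens, map_add, add_mul]

lemma tens_add_right (c : W.H (X.prod X)) (d d' : W.H (Y.prod Y)) :
    tens W c (d + d') = tens W c d + tens W c d' := by
  rw [tens, tens, tens, map_add, mul_add]

end Pool.Agent.Helper3K9.NT
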