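import Pool.Agent.Helper3K9.NT.Basic

/-!
# The projector to the even part as an operator
-/

set_option autoImplicit false

open CategoryTheory AlgebraicGeometry

universe u v w

namespace Pool.Agent.Helper3K9.NT

open Pool.Agent.H914 VarClass Obj WeilCohomology Pool.Agent.Helper9K9.DT Pool.Agent.Helper9K9.LF

variable {k : Type u} [Field k] {𝒱 : VarClass k} {ops : CycleOps 𝒱}
variable {W : WeilCohomology.{u, v} ops} {X Y Z : 𝒱.Obj}

/-- The projector of `H(X)` to the even part. -/
noncomputable def pe (W : WeilCohomology.{u, v} ops) (X : 𝒱.Obj) : Module.End W.K (W.H X) :=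
  (2 : W.K)⁻¹ • (1 + sg W X)

/-- The projector of `H(X)` to the odd part. -/
noncomputable def po (W : WeilCohomology.{u, v} ops) (X : 𝒱.Obj) : Module.End W.K (W.H X) :=
  (2 : W.K)⁻¹ • (1 - sg W X)

lemma pe_add_po : pe W X + po W X = 1 := by
  rw [pe, po, ← smul_add, add_add_sub_cancel, ← two_smul W.K (1 : Module.End W.K (W.H X)),
    smul_smul, inv_mul_cancel₀ two_ne_zero, one_smul]

lemma pe_even {x : W.H X} (hx : x ∈ par W X 0) : pe W X x = x := by
  rw [pe, LinearMap.smul_apply, LinearMap.add_apply, Module.End.one_apply, sg_par hx, pow_zero,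
    one_smul, ← two_smul W.K x, smul_smul, inv_mul_cancel₀ two_ne_zero, one_smul]

lemma pe_odd {x : W.H X} (hx : x ∈ par W X 1) : pe W X x = 0 := by
  rw [pe, LinearMap.smul_apply, LinearMap.add_apply, Module.End.one_apply, sg_par hx, pow_one,
    neg_smul, one_smul, add_neg_cancel, smul_zero]

lemma po_even {x : W.H X} (hx : x ∈ par W X 0) : po W X x = 0 := by
  rw [po, LinearMap.smul_apply, LinearMap.sub_apply, Module.End.one_apply, sg_par hx, pow_zero,
    one_smul, sub_self, smul_zero]

lemma po_odd {x : W.H X} (hx : x ∈ par W X 1) : po W X x = x := by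
  rw [po, LinearMap.smul_apply, LinearMap.sub_apply, Module.End.one_apply, sg_par hx, pow_one,
    neg_smul, one_smul, sub_neg_eq_add, ← two_smul W.K x, smul_smul,
    inv_mul_cancel₀ two_ne_zero, one_smul]

/-- Operators which agree on the even and on the odd classes are equal. -/
lemma ext_par {V : Type w} [AddCommGroup V] [Module W.K V] {L L' : W.H X →ₗ[W.K] V}
    (h0 : ∀ x ∈ par W X 0, L x = L' x) (h1 : ∀ x ∈ par W X 1, L x = L' x) : L = L' := by
  apply LinearMap.ext
  intro x
  obtain ⟨y, hy, z, hz, rfl⟩ := par_split x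
  rw [map_add, map_add, h0 y hy, h1 z hz]

lemma pe_mul_pe : pe W X * pe W X = pe W X := by
  apply ext_par
  · intro x hx; rw [Module.End.mul_apply, pe_even hx, pe_even hx]
  · intro x hx; rw [Module.End.mul_apply, pe_odd hx, map_zero]

lemma po_mul_po : po W X * po W X = po W X := by
  apply ext_par
  · intro x hx; rw [Module.End.mul_apply, po_even hx, map_zero]
  · intro x hx; rw [Module.End.mul_apply, po_odd hx, po_odd hx]

lemma pe_mul_po : pe W X * po W X = 0 := by
  apply ext_par
  · intro x hx; rw [Module.End.mul_apply, po_even hx, map_zero]; rfl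
  · intro x hx; rw [Module.End.mul_apply, po_odd hx, pe_odd hx]; rfl

lemma po_mul_pe : po W X * pe W X = 0 := by
  apply ext_par
  · intro x hx; rw [Module.End.mul_apply, pe_even hx, po_even hx]; rfl
  · intro x hx; rw [Module.End.mul_apply, pe_odd hx, map_zero]; rfl

lemma sg_mul_pe : sg W X * pe W X = pe W X := by
  apply ext_par
  · intro x hx; rw [Module.End.mul_apply, pe_even hx, sg_par hx, pow_zero, one_smul]
  · intro x hx; rw [Module.End.mul_apply, pe_odd hx, map_zero]

lemma sg_mul_po : sg W X * po W X = -po W X := by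
  apply ext_par
  · intro x hx; rw [Module.End.mul_apply, LinearMap.neg_apply, po_even hx, map_zero, neg_zero]
  · intro x hx
    rw [Module.End.mul_apply, LinearMap.neg_apply, po_odd hx, sg_par hx, pow_one, neg_smul,
      one_smul]

lemma Ev.comm_pe {z : Module.End W.K (W.H X)} (hz : Ev W X z) : Commute (pe W X) z :=
  Commute.smul_left (Commute.add_left (Commute.one_left _) hz) _

lemma Ev.comm_po {z : Module.End W.K (W.H X)} (hz : Ev W X z) : Commute (po W X) z :=
  Commute.smul_left (Commute.sub_left (Commute.one_left _) hz) _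

/-- The projector to the even part of `X × Y`. -/
lemma pe_prod : pe W (X.prod Y) = opT W (pe W X) (pe W Y) + opT W (po W X) (po W Y) := by
  apply box_ext_par
  intro p q x hx y hy
  have hp : ∀ (Z : 𝒱.Obj) (r : ℕ) (z : W.H Z), z ∈ par W Z r →
      (z ∈ par W Z 0 ∧ r % 2 = 0) ∨ (z ∈ par W Z 1 ∧ r % 2 = 1) := by
    intro Z r z hz
    have h1 := sg_par hz
    rcases Nat.even_or_odd r with h | h
    · left
      rw [h.neg_one_pow] at h1
      exact ⟨mem_par_of_sg (p := 0) (by simpa using h1), Nat.even_iff.1 h⟩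
    · right
      rw [h.neg_one_pow] at h1
      exact ⟨mem_par_of_sg (p := 1) (by simpa using h1), Nat.odd_iff.1 h⟩
  rw [LinearMap.add_apply, opT_box, opT_box]
  rcases hp X p x hx with ⟨hx0, _⟩ | ⟨hx1, _⟩ <;> rcases hp Y q y hy with ⟨hy0, _⟩ | ⟨hy1, _⟩
  · rw [pe_even hx0, pe_even hy0, po_even hx0, box_zero_left, add_zero,
      pe_even (by simpa using box_mem_par hx0 hy0)]
  · rw [pe_odd hy1, po_even hx0, box_zero_left, box_zero_right, add_zero,
      pe_odd (by simpa using box_mem_par hx0 hy1)]
  · rw [pe_odd hx1, po_even hy0, box_zero_left, box_zero_right, add_zero,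
      pe_odd (by simpa using box_mem_par hx1 hy0)]
  · rw [pe_odd hx1, po_odd hx1, po_odd hy1, box_zero_left, zero_add,
      pe_even (par_add_two _ 0 (by simpa using box_mem_par hx1 hy1))]

/-- The conjecture in terms of operators. -/
lemma signAlg_iff {p : W.H (X.prod X)} : SignAlg W X p ↔
    ∃ γ ∈ algSpan W (X.prod X), W.corr γ = W.corr p * pe W X := by
  constructor
  · rintro ⟨γ, hγ, h0, h1⟩
    refine ⟨γ, hγ, ?_⟩
    apply ext_par
    · intro x hx; rw [Module.End.mul_apply, pe_even hx]; exact h0 x hx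
    · intro x hx; rw [Module.End.mul_apply, pe_odd hx, map_zero]; exact h1 x hx
  · rintro ⟨γ, hγ, h⟩
    refine ⟨γ, hγ, fun x hx => ?_, fun x hx => ?_⟩
    · have hx' : x ∈ par W X 0 := hx
      rw [act_eq, act_eq, h, Module.End.mul_apply, pe_even hx']
    · have hx' : x ∈ par W X 1 := hx
      rw [act_eq, h, Module.End.mul_apply, pe_odd hx', map_zero]

lemma isMotive_iff {p : W.H (X.prod X)} : IsMotive W X p ↔
    p ∈ algSpan W (X.prod X) ∧ W.corr p * W.corr p = W.corr p :=
  ⟨fun h => ⟨h.1, LinearMap.ext fun x => h.2 x⟩,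
    fun h => ⟨h.1, fun x => congrArg (fun L => L x) h.2⟩⟩

lemma nonzero_iff {p : W.H (X.prod X)} : Nonzero W X p ↔ W.corr p ≠ 0 := by
  constructor
  · rintro ⟨x, hx⟩ h
    exact hx (by rw [act_eq, h]; rfl)
  · intro h
    by_contra h1
    apply h
    apply LinearMap.ext
    intro x
    by_contra h2
    exact h1 ⟨x, h2⟩

/-- Pull-backs are induced by algebraic classes. -/
lemma exists_graph (f : X ⟶ X) : ∃ c ∈ algSpan W (X.prod X), W.corr c = (W.map f).toLinearMap := by
  refine ⟨_, algSpan_gen (p := X.dim) (ops.push_mem _ X.V.fundCycle_mem ?_),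
    Pool.Agent.W534.corr_graph (W := W) f⟩
  rw [dim_prod, zero_add]

end Pool.Agent.Helper3K9.NT
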