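import Pool.Agent.Helper3K9.NT.Bwd

set_option autoImplicit false

open CategoryTheory AlgebraicGeometry

universe u v w

namespace Pool.Agent.Helper3K9.NT

open Pool.Agent.H914 VarClass Obj WeilCohomology Pool.Agent.Helper9K9.DT Pool.Agent.Helper9K9.LF

variable {k : Type u} [Field k] {𝒱 : VarClass k} {ops : CycleOps 𝒱}
variable {W : WeilCohomology.{u, v} ops} {X Y : 𝒱.Obj}

lemma ev_sg : Ev W X (sg W X) := Commute.refl _

lemma ev_pe : Ev W X (pe W X) :=
  Commute.smul_right (Commute.add_right (Commute.one_right _) (Commute.refl _)) _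

lemma ev_po : Ev W X (po W X) :=
  Commute.smul_right (Commute.sub_right (Commute.one_right _) (Commute.refl _)) _

lemma corr_sum {ι : Type*} (s : Finset ι) (c : ι → W.H (X.prod Y)) :
    W.corr (∑ i ∈ s, c i) = ∑ i ∈ s, W.corr (c i) := by
  classical
  induction s using Finset.induction_on with
  | empty => rw [Finset.sum_empty, Finset.sum_empty, corr_zero]
  | insert a s ha h => rw [Finset.sum_insert ha, Finset.sum_insert ha, corr_add, h]

/-- The facts on the operator `F` of `schur`. -/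
lemma schur_facts (hPIN : S_PIN.{u, v}) (hTPI : S_TPI.{u, v})
    (hACT : S_ACT.{u, v}) {m : ℕ} {p : W.H (X.prod X)}
    (a : Equiv.Perm (Fin (m + 1)) → W.K) (hp : IsMotive W X p) :
    (∀ j, W.corr (schur W X p m a) * ins W X m j (W.corr p) = W.corr (schur W X p m a)) ∧
    (∀ j, ins W X m j (W.corr p) * W.corr (schur W X p m a) = W.corr (schur W X p m a)) ∧
    ∀ z, Ev W X z → Commute (W.corr p) z →
      Commute (W.corr (schur W X p m a)) (∑ j, ins W X m j z) := by
  obtain ⟨h1, h2, h3⟩ := hTPI W X m p hp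
  have hpE : Ev W X (W.corr p) := ev_corr_alg hp.1
  rw [hACT W X m p a]
  refine ⟨fun j => ?_, fun j => ?_, fun z hz hpz => ?_⟩
  · rw [Finset.sum_mul]
    refine Finset.sum_congr rfl fun σ _ => ?_
    rw [smul_mul_assoc, mul_assoc, (h1 j).1]
  · rw [Finset.mul_sum]
    refine Finset.sum_congr rfl fun σ _ => ?_
    rw [mul_smul_comm, (h2 σ).eq, ← mul_assoc, (h1 j).2]
  · refine Commute.sum_left _ _ _ fun σ _ => Commute.smul_left ?_ _
    apply Commute.mul_left
    · change R W X m σ * ∑ j, ins W X m j z = (∑ j, ins W X m j z) * R W X m σ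
      rw [Finset.mul_sum, Finset.sum_mul]
      have h4 : ∀ j, R W X m σ * ins W X m j z = ins W X m (σ j) z * R W X m σ :=
        fun j => hPIN W X m σ j z hz
      rw [Finset.sum_congr rfl fun j _ => h4 j]
      exact Equiv.sum_comp σ fun j => ins W X m j z * R W X m σ
    · exact Commute.sum_right _ _ _ fun j _ => h3 j z hpz

/-- The core: from a nonzero part of `F` of one parity. -/
lemma core (hABS : S_ABS.{v}) (hADJ : S_ADJ.{u, v}) (hCOMP : S_COMP.{u, v})
    (hINA : S_INA.{u, v}) (hPIN : S_PIN.{u, v}) (hTPI : S_TPI.{u, v}) (hACT : S_ACT.{u, v})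
    (hPRM : S_PRM.{u, v}) {m : ℕ} {p : W.H (X.prod X)}
    (a : Equiv.Perm (Fin (m + 1 + 1)) → W.K) (hp : IsMotive W X p)
    (hM : IsMotive W (pw X (m + 1)) (schur W X p (m + 1) a))
    {τ : W.H ((pw X (m + 1)).prod (pw X (m + 1)))} (hτ : τ ∈ algSpan W _)
    {P : Module.End W.K (W.H (pw X (m + 1)))} {ε : W.K} (hε : ε = 1 ∨ ε = -1)
    (hPP : P * P = P) (hPS : sg W (pw X (m + 1)) * P = ε • P)
    (hPE : ∀ z, Ev W (pw X (m + 1)) z → Commute P z)
    (hτP : W.corr τ = W.corr (schur W X p (m + 1) a) * P) (h0 : W.corr τ ≠ 0) :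
    SignAlg W X p := by
  have hfinX : Module.Finite W.K (W.H X) := (W.isPoincareAlgebra X).finite
  have hfinU : Module.Finite W.K (W.H (pw X (m + 1))) :=
    (W.isPoincareAlgebra (pw X (m + 1))).finite
  obtain ⟨h1, h2, h3⟩ := schur_facts hPIN hTPI hACT a hp
  obtain ⟨⟨i, hi⟩, hcomm, hev⟩ := hINA W X (m + 1)
  obtain ⟨hR1, hRmul, hREv, -⟩ := hPRM W X (m + 1)
  have hpE : Ev W X (W.corr p) := ev_corr_alg hp.1
  set F := W.corr (schur W X p (m + 1) a) with hF
  set T := W.corr τ with hT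
  set S := sg W (pw X (m + 1)) with hS
  have hFE : Ev W (pw X (m + 1)) F := ev_corr_alg (isMotive_iff.1 hM).1
  have hFF : F * F = F := (isMotive_iff.1 hM).2
  have hTT : T * T = T := by
    rw [hτP, mul_assoc, ← mul_assoc P, (hPE F hFE).eq, mul_assoc F P, hPP, ← mul_assoc, hFF]
  have hST : S * T = ε • T := by
    rw [hτP, ← mul_assoc, (show S * F = F * S from hFE), mul_assoc, hPS, mul_smul_comm]
  -- the algebraic classes of the conjugates
  have hgr : ∀ σ, ∃ c ∈ algSpan W ((pw X (m + 1)).prod (pw X (m + 1))),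
      W.corr c = R W X (m + 1) σ := fun σ => exists_graph _
  have hconj : ∀ j : Fin (m + 2), ∃ c ∈ algSpan W ((pw X (m + 1)).prod (pw X (m + 1))),
      W.corr c = R W X (m + 1) (Equiv.swap 0 j) * (T * R W X (m + 1) (Equiv.swap 0 j)) := by
    intro j
    obtain ⟨r, hr, er⟩ := hgr (Equiv.swap 0 j)
    obtain ⟨c, hc, ec⟩ := hCOMP W _ _ _ r τ hr hτ
    obtain ⟨c', hc', ec'⟩ := hCOMP W _ _ _ c r hc hr
    refine ⟨c', hc', ?_⟩
    rw [ec', ec, er]
    rfl
  choose γ hγ eγ using hconj
  set c' : W.H (X.prod X) := ∑ j : Fin (m + 2), contr W X (pw X m) 1 (γ j) with hc'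
  have hc'alg : c' ∈ algSpan W (X.prod X) :=
    Submodule.sum_mem _ fun j _ => contr_mem one_mem_algSpan (hγ j)
  have hCev : Ev W X (W.corr c') := ev_corr_alg hc'alg
  have htr : ∀ y, Ev W X y → LinearMap.trace W.K (W.H X) (sg W X * W.corr c' * y) =
      LinearMap.trace W.K (W.H (pw X (m + 1))) (S * T * ∑ j, i j y) := by
    intro y hy
    rw [hc', corr_sum, Finset.mul_sum, Finset.sum_mul, map_sum, Finset.mul_sum, map_sum]
    refine Finset.sum_congr rfl fun j _ => ?_
    rw [hADJ W X (pw X m) (γ j) y hy]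
    have e0 : opT W y (1 : Module.End W.K (W.H (pw X m))) = ins W X (m + 1) 0 y := rfl
    rw [e0]
    change LinearMap.trace W.K (W.H (pw X (m + 1))) (S * W.corr (γ j) * ins W X (m + 1) 0 y) = _
    rw [eγ j, hi j y]
    set ρ := R W X (m + 1) (Equiv.swap 0 j) with hρ
    have e1 : ρ * ρ = 1 := by
      rw [hρ, ← hRmul, Equiv.swap_mul_self, hR1]
    have e2 : ρ * ins W X (m + 1) 0 y = ins W X (m + 1) j y * ρ := by
      have := hPIN W X (m + 1) (Equiv.swap 0 j) 0 y hy
      rwa [Equiv.swap_apply_left] at this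
    have e3 : S * ρ = ρ * S := hREv _
    have e4 : S * (ρ * (T * ρ)) * ins W X (m + 1) 0 y =
        ρ * (S * T * (ρ * ins W X (m + 1) 0 y)) := by
      rw [← mul_assoc S ρ, e3]
      simp only [mul_assoc]
    rw [e4, LinearMap.trace_mul_comm, e2]
    have e5 : S * T * (ins W X (m + 1) j y * ρ) * ρ = S * T * ins W X (m + 1) j y * (ρ * ρ) := by
      simp only [mul_assoc]
    rw [e5, e1, mul_one]
  have habs := hABS W.K (W.H X) (W.H (pw X (m + 1))) (sg W X) (W.corr p) (W.corr c') S T (m + 2) i ε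
    (by omega) sg_mul_sg hpE (isMotive_iff.1 hp).2 hCev hTT h0 hε hST
    (fun a b hab y z => by rw [hi, hi]; exact hcomm a b hab y z)
    (fun j => by
      rw [hi]
      have hj : Commute P (ins W X (m + 1) j (W.corr p)) := hPE _ (hev j _ hpE)
      constructor
      · rw [hτP, mul_assoc, hj.eq, ← mul_assoc, h1 j]
      · rw [hτP, ← mul_assoc, h2 j])
    (fun z hz hz' => by
      have e1 : ∑ j, i j z = ∑ j, ins W X (m + 1) j z := Finset.sum_congr rfl fun j _ => hi j z
      rw [e1, hτP]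
      exact Commute.mul_left (h3 z hz hz')
        (Commute.sum_right _ _ _ fun j _ => hPE _ (hev j z hz)))
    htr
  rw [signAlg_iff]
  rcases habs with ⟨α, β, hαβ, hC⟩ | hC | hC
  · refine ⟨(α - β)⁻¹ • (c' - β • p), Submodule.smul_mem _ _ (Submodule.sub_mem _ hc'alg
      (Submodule.smul_mem _ _ hp.1)), ?_⟩
    rw [corr_smul, corr_sub', corr_smul, hC]
    change (α - β)⁻¹ • (α • (W.corr p * pe W X) + β • (W.corr p * po W X) - β • W.corr p) = _
    have e1 : W.corr p = W.corr p * pe W X + W.corr p * po W X := by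
      rw [← mul_add, pe_add_po, mul_one]
    have e2 : α • (W.corr p * pe W X) + β • (W.corr p * po W X) - β • W.corr p =
        (α - β) • (W.corr p * pe W X) := by
      have key : ∀ A B C : Module.End W.K (W.H X), C = A + B →
          α • A + β • B - β • C = (α - β) • A := by
        intro A B C h
        rw [h]
        module
      exact key _ _ _ e1
    rw [e2, smul_smul, inv_mul_cancel₀ (sub_ne_zero.2 hαβ), one_smul]
  · refine ⟨0, Submodule.zero_mem _, ?_⟩
    rw [corr_zero, pe, mul_smul_comm, hC, smul_zero]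
  · refine ⟨p, hp.1, ?_⟩
    have e1 : W.corr p * po W X = 0 := by
      rw [po, mul_smul_comm, hC, smul_zero]
    have e2 : W.corr p = W.corr p * pe W X + W.corr p * po W X := by
      rw [← mul_add, pe_add_po, mul_one]
    rw [e1, add_zero] at e2
    exact e2

theorem big : S_ABS.{v} → S_ADJ.{u, v} → S_COMP.{u, v} → S_INA.{u, v} → S_PIN.{u, v} →
    S_TPI.{u, v} → S_ACT.{u, v} → S_PRM.{u, v} → S_BZ.{u, v} → S_BIG.{u, v} := by
  intro hABS hADJ hCOMP hINA hPIN hTPI hACT hPRM hBZ k _ 𝒱 ops W X m p a hp hM hN hS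
  cases m with
  | zero => exact hBZ W X p a hN hS
  | succ m =>
    rw [signAlg_iff] at hS
    rw [nonzero_iff] at hN
    obtain ⟨γ, hγ, eγ⟩ := hS
    by_cases h : W.corr γ = 0
    · have h1 : W.corr (schur W X p (m + 1) a - γ) =
          W.corr (schur W X p (m + 1) a) * po W (pw X (m + 1)) := by
        rw [corr_sub', eγ, sub_mul_pe]
      refine core hABS hADJ hCOMP hINA hPIN hTPI hACT hPRM a hp hM
        (Submodule.sub_mem _ hM.1 hγ) (ε := -1) (Or.inr rfl) po_mul_po ?_
        (fun z hz => Ev.comm_po hz) h1 ?_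
      · rw [sg_mul_po]
        apply LinearMap.ext
        intro x
        rw [LinearMap.neg_apply, LinearMap.smul_apply, neg_one_smul]
      · rw [corr_sub', h, sub_zero]; exact hN
    · exact core hABS hADJ hCOMP hINA hPIN hTPI hACT hPRM a hp hM hγ (ε := 1) (Or.inl rfl)
        pe_mul_pe (by rw [sg_mul_pe, one_smul]) (fun z hz => Ev.comm_pe hz) eγ h

end Pool.Agent.Helper3K9.NT
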