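import Pool.Agent.Helper3K9.NT.Fwd

set_option autoImplicit false

open CategoryTheory AlgebraicGeometry

universe u v w

namespace Pool.Agent.Helper3K9.NT

open Pool.Agent.H914 VarClass Obj WeilCohomology Pool.Agent.Helper9K9.DT Pool.Agent.Helper9K9.LF

variable {k : Type u} [Field k] {𝒱 : VarClass k} {ops : CycleOps 𝒱}
variable {W : WeilCohomology.{u, v} ops} {X Y : 𝒱.Obj}

/-- Conjugation by the sign, on classes. -/
lemma corr_sg (c : W.H (X.prod X)) :
    W.corr (sg W (X.prod X) c) = sg W X * W.corr c * sg W X := by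
  refine W.kunneth_induction (p := fun c =>
    W.corr (sg W (X.prod X) c) = sg W X * W.corr c * sg W X) ?_ ?_ c
  · intro a b ha hb
    rw [map_add, corr_add, corr_add, ha, hb, mul_add, add_mul]
  · intro i j a ha b hb
    change W.corr (sg W (X.prod X) (box W a b)) = sg W X * W.corr (box W a b) * sg W X
    apply gr_ext (W.isInternal X)
    intro l x hx
    have h1 : sg W (X.prod X) (box W a b) = (-1 : W.K) ^ (i + j) • box W a b :=
      sg_gr (box_mem_gr ha hb)
    rw [h1, corr_smul, LinearMap.smul_apply, Module.End.mul_apply, Module.End.mul_apply,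
      sg_gr hx, map_smul, map_smul, corr_box (gr_le_par X j hb) (gr_le_par X l hx), map_smul,
      map_smul, sg_gr hb]
    by_cases hl : i + l = 2 * X.dim
    · have h2 : (-1 : W.K) ^ (i + j) = (-1 : W.K) ^ l * (-1 : W.K) ^ j := by
        have h3 : (-1 : W.K) ^ i = (-1 : W.K) ^ l := by
          have h4 : Even (i + l) := by rw [hl]; exact even_two_mul _
          rcases Nat.even_or_odd i with h5 | h5
          · rw [h5.neg_one_pow, ((Nat.even_add.1 h4).1 h5).neg_one_pow]
          · have h6 : Odd l := by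
              rw [← Nat.not_even_iff_odd] at h5 ⊢
              exact fun h7 => h5 ((Nat.even_add.1 h4).2 h7)
            rw [h5.neg_one_pow, h6.neg_one_pow]
        rw [pow_add, h3]
      rw [h2]
      simp only [smul_smul]
      congr 1
      ring
    · rw [W.tr_eq_zero (W.mul_mem ha hx) hl]
      simp

/-- The class of an even operator is even. -/
lemma exists_corr_even {f : Module.End W.K (W.H X)} (hf : Ev W X f) :
    ∃ c ∈ par W (X.prod X) 0, W.corr c = f := by
  obtain ⟨c, hc⟩ := Pool.Agent.H447.exists_corr (W := W) (X := X) (Y := X) f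
  refine ⟨c, ?_, hc⟩
  have h1 : W.corr (sg W (X.prod X) c) = W.corr c := by
    have h2 : sg W X * f = f * sg W X := hf
    rw [corr_sg, hc, h2, mul_assoc, sg_mul_sg, mul_one]
  have h2 : sg W (X.prod X) c = c := corrL_inj h1
  exact mem_par_of_sg (p := 0) (by rw [h2]; simp)

/-- The trace of an idempotent is the natural number given by its rank. -/
lemma trace_idem {K : Type*} [Field K] {V : Type*} [AddCommGroup V] [Module K V]
    [Module.Finite K V] {e : Module.End K V} (he : e * e = e) :
    ∃ n : ℕ, LinearMap.trace K V e = n ∧ (n = 0 → e = 0) := by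
  have h : IsIdempotentElem e := he
  refine ⟨Module.finrank K (LinearMap.range e),
    (LinearMap.IsIdempotentElem.isProj_range e h).trace, fun h0 => ?_⟩
  exact LinearMap.range_eq_bot.1 (Submodule.finrank_eq_zero.1 h0)

theorem bwd : S_TEN.{u, v} → S_CON.{u, v} → S_BWD.{u, v} := by
  intro hTEN hCON k _ 𝒱 ops W X Y p q hp hq hq0 h
  have hfin : Module.Finite W.K (W.H Y) := (W.isPoincareAlgebra Y).finite
  rw [isMotive_iff] at hq
  rw [nonzero_iff] at hq0
  rw [signAlg_iff] at h ⊢
  obtain ⟨γ, hγ, hγ'⟩ := h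
  have hpE : Ev W X (W.corr p) := ev_corr_alg hp
  have hqE : Ev W Y (W.corr q) := ev_corr_alg hq.1
  have hsg : Ev W X (sg W X) := Commute.refl _
  have evpe : ∀ Z : 𝒱.Obj, Ev W Z (pe W Z) := fun Z =>
    Commute.smul_right (Commute.add_right (Commute.one_right _) (Commute.refl _)) _
  have evpo : ∀ Z : 𝒱.Obj, Ev W Z (po W Z) := fun Z =>
    Commute.smul_right (Commute.sub_right (Commute.one_right _) (Commute.refl _)) _
  obtain ⟨s0, hs0, es0⟩ := exists_corr_even (W := W) (X := X) (f := W.corr p * pe W X)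
    (Commute.mul_right hpE (evpe X))
  obtain ⟨s1, hs1, es1⟩ := exists_corr_even (W := W) (X := X) (f := W.corr p * po W X)
    (Commute.mul_right hpE (evpo X))
  obtain ⟨t0, ht0, et0⟩ := exists_corr_even (W := W) (X := Y) (f := W.corr q * pe W Y)
    (Commute.mul_right hqE (evpe Y))
  obtain ⟨t1, ht1, et1⟩ := exists_corr_even (W := W) (X := Y) (f := W.corr q * po W Y)
    (Commute.mul_right hqE (evpo Y))
  have e1 : γ = tens W s0 t0 + tens W s1 t1 := by
    apply corrL_inj
    change W.corr γ = W.corr _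
    rw [hγ', corr_add, hTEN W X Y p q (algSpan_le_par hp) (algSpan_le_par hq.1),
      hTEN W X Y s0 t0 hs0 ht0, hTEN W X Y s1 t1 hs1 ht1, es0, es1, et0, et1, pe_prod, mul_add,
      opT_mul, opT_mul]
  have e2 : p = s0 + s1 := by
    apply corrL_inj
    change W.corr p = W.corr _
    rw [corr_add, es0, es1, ← mul_add, pe_add_po, mul_one]
  -- the contraction
  have e3 := contr_mem (W := W) (X := X) (Q := Y) (one_mem_algSpan) hγ
  rw [e1, map_add, hCON W X Y s0 t0 ht0, hCON W X Y s1 t1 ht1, et0, et1] at e3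
  have id0 : (W.corr q * pe W Y) * (W.corr q * pe W Y) = W.corr q * pe W Y := by
    rw [mul_assoc, ← mul_assoc (pe W Y), (Ev.comm_pe hqE).eq, mul_assoc (W.corr q) (pe W Y),
      pe_mul_pe, ← mul_assoc, hq.2]
  have id1 : (W.corr q * po W Y) * (W.corr q * po W Y) = W.corr q * po W Y := by
    rw [mul_assoc, ← mul_assoc (po W Y), (Ev.comm_po hqE).eq, mul_assoc (W.corr q) (po W Y),
      po_mul_po, ← mul_assoc, hq.2]
  have sg0 : sg W Y * (W.corr q * pe W Y) = W.corr q * pe W Y := by
    have h1 : sg W Y * W.corr q = W.corr q * sg W Y := hqE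
    rw [← mul_assoc, h1, mul_assoc, sg_mul_pe]
  have sg1 : sg W Y * (W.corr q * po W Y) = -(W.corr q * po W Y) := by
    have h1 : sg W Y * W.corr q = W.corr q * sg W Y := hqE
    rw [← mul_assoc, h1, mul_assoc, sg_mul_po]
    apply LinearMap.ext
    intro x
    rw [Module.End.mul_apply, LinearMap.neg_apply, LinearMap.neg_apply, map_neg,
      Module.End.mul_apply]
  obtain ⟨n0, hn0, hz0⟩ := trace_idem id0
  obtain ⟨n1, hn1, hz1⟩ := trace_idem id1
  rw [sg0, sg1, map_neg, hn0, hn1] at e3
  have hsum : ((n0 + n1 : ℕ) : W.K) ≠ 0 := by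
    rw [Nat.cast_ne_zero]
    intro h0
    apply hq0
    have h1 : W.corr q = W.corr q * pe W Y + W.corr q * po W Y := by
      rw [← mul_add, pe_add_po, mul_one]
    rw [h1, hz0 (by omega), hz1 (by omega), add_zero]
  refine ⟨((n0 + n1 : ℕ) : W.K)⁻¹ • (((n0 : W.K) • s0 + (-(n1 : W.K)) • s1) + (n1 : W.K) • p),
    Submodule.smul_mem _ _ (Submodule.add_mem _ e3 (Submodule.smul_mem _ _ hp)), ?_⟩
  have e4 : ((n0 : W.K) • s0 + (-(n1 : W.K)) • s1) + (n1 : W.K) • p =
      ((n0 + n1 : ℕ) : W.K) • s0 := by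
    rw [e2]
    push_cast
    module
  rw [e4, smul_smul, inv_mul_cancel₀ hsum, one_smul, es0]

end Pool.Agent.Helper3K9.NT
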