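import Pool.Agent.Helper3K9.NT.Basic2

set_option autoImplicit false

open CategoryTheory AlgebraicGeometry

universe u v w

namespace Pool.Agent.Helper3K9.NT

open Pool.Agent.H914 VarClass Obj WeilCohomology Pool.Agent.Helper9K9.DT Pool.Agent.Helper9K9.LF

variable {k : Type u} [Field k] {𝒱 : VarClass k} {ops : CycleOps 𝒱}

theorem comp : S_COMP.{u, v} := by
  intro k _ 𝒱 ops W X Y Z c d hc hd
  change d ∈ Submodule.span W.K _ at hd
  induction hd using Submodule.span_induction with
  | mem d hd =>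
    obtain ⟨q, z, hz, rfl⟩ := hd
    exact ⟨_, algSpan_push _ (algSpan_mul (algSpan_map _ hc) (algSpan_map _ (algSpan_gen hz))),
      corr_comp W c (W.cl_mem hz)⟩
  | zero => exact ⟨0, Submodule.zero_mem _, by rw [corr_zero, corr_zero, LinearMap.zero_comp]⟩
  | add d d' _ _ h h' =>
    obtain ⟨e, he, h1⟩ := h
    obtain ⟨e', he', h1'⟩ := h'
    exact ⟨e + e', Submodule.add_mem _ he he', by
      rw [corr_add, corr_add, LinearMap.add_comp, h1, h1']⟩
  | smul a d _ h =>
    obtain ⟨e, he, h1⟩ := h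
    exact ⟨a • e, Submodule.smul_mem _ _ he, by
      rw [corr_smul, corr_smul, LinearMap.smul_comp, h1]⟩

end Pool.Agent.Helper3K9.NT
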