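import Pool.Agent.Helper9K9.DT.SignDefs

/-!
# Noncommutative motives, their tensor products and Schur functors: definitions
-/

set_option autoImplicit false

open CategoryTheory AlgebraicGeometry

universe u v

namespace Pool.Agent.Helper3K9.NT

open Pool.Agent.H914 VarClass Obj WeilCohomology Pool.Agent.Helper9K9.DT

variable {k : Type u} [Field k] {𝒱 : VarClass k} {ops : CycleOps 𝒱}

/-- `(X, p)` is a noncommutative motive: `p` is a combination of classes of cycles of all
codimensions on `X × X` with coefficients in the coefficient field, and the operator of `H(X)` which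
it induces is idempotent. The realization of `(X, p)` is the image of this operator. -/
def IsMotive (W : WeilCohomology.{u, v} ops) (X : 𝒱.Obj) (p : W.H (X.prod X)) : Prop :=
  IsAlg W (X.prod X) p ∧ ∀ x, act W X p (act W X p x) = act W X p x

/-- The realization of `(X, p)` is not zero. -/
def Nonzero (W : WeilCohomology.{u, v} ops) (X : 𝒱.Obj) (p : W.H (X.prod X)) : Prop :=
  ∃ x, act W X p x ≠ 0

/-- The projector of the realization of `(X, p)` to its even part is algebraic: it is the action of
a combination of classes of cycles of all codimensions on `X × X` with coefficients in the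
coefficient field. -/
def SignAlg (W : WeilCohomology.{u, v} ops) (X : 𝒱.Obj) (p : W.H (X.prod X)) : Prop :=
  ∃ γ, IsAlg W (X.prod X) γ ∧ (∀ x, HasParity W X 0 x → act W X γ x = act W X p x) ∧
    ∀ x, HasParity W X 1 x → act W X γ x = 0

/-- The tensor product `p ⊗ q` of a correspondence of `X` and a correspondence of `Y`: the product of
the pull-backs of `p` and `q` to `(X × Y) × (X × Y)`. -/
noncomputable def tens (W : WeilCohomology.{u, v} ops) {X Y : 𝒱.Obj} (p : W.H (X.prod X))
    (q : W.H (Y.prod Y)) : W.H ((X.prod Y).prod (X.prod Y)) :=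
  W.map (Obj.lift (fst (X.prod Y) (X.prod Y) ≫ fst X Y) (snd (X.prod Y) (X.prod Y) ≫ fst X Y)) p *
    W.map (Obj.lift (fst (X.prod Y) (X.prod Y) ≫ snd X Y) (snd (X.prod Y) (X.prod Y) ≫ snd X Y)) q

/-- The tensor power `p ⊗ … ⊗ p` (with `m + 1` factors), on `X ^ (m + 1) × X ^ (m + 1)`. -/
noncomputable def tpow (W : WeilCohomology.{u, v} ops) (X : 𝒱.Obj) (p : W.H (X.prod X)) :
    (m : ℕ) → W.H ((pw X m).prod (pw X m))
  | 0 => p
  | m + 1 => tens W (Y := pw X m) p (tpow W X p m)

/-- The morphism to `X ^ (m + 1)` with the given components. -/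
noncomputable def toPw {X Y : 𝒱.Obj} : (m : ℕ) → (Fin (m + 1) → (Y ⟶ X)) → (Y ⟶ pw X m)
  | 0 => fun f => f 0
  | m + 1 => fun f => Obj.lift (f 0) (toPw m fun i => f i.succ)

/-- The automorphism `(x 0, …, x m) ↦ (x (σ 0), …, x (σ m))` of `X ^ (m + 1)`. -/
noncomputable def perm (X : 𝒱.Obj) (m : ℕ) (σ : Equiv.Perm (Fin (m + 1))) : pw X m ⟶ pw X m :=
  toPw m fun i => pr X m (σ i)

/-- The correspondence `∑ a σ • σ ∘ (p ⊗ … ⊗ p)` of `X ^ (m + 1)`: the sum over the permutations `σ`
of the pull-backs of the tensor power of `p` under `1 × σ`, with the coefficients `a σ`. It acts as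
the tensor power of `p`, followed by the element `∑ a σ • σ` of the group algebra, where `σ` acts by
the pull-back (hence with the Koszul signs on the tensor power of `H(X)`). -/
noncomputable def schur (W : WeilCohomology.{u, v} ops) (X : 𝒱.Obj) (p : W.H (X.prod X)) (m : ℕ)
    (a : Equiv.Perm (Fin (m + 1)) → W.K) : W.H ((pw X m).prod (pw X m)) :=
  ∑ σ : Equiv.Perm (Fin (m + 1)),
    a σ • W.map (Obj.lift (fst (pw X m) (pw X m)) (snd (pw X m) (pw X m) ≫ perm X m σ))
      (tpow W X p m)

end Pool.Agent.Helper3K9.NT
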