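import Pool.Agent.Helper3K9.NT.Fin

set_option autoImplicit false

open CategoryTheory AlgebraicGeometry

universe u v w

namespace Pool.Agent.Helper3K9.NT

open Pool.Agent.H914 VarClass Obj WeilCohomology Pool.Agent.Helper9K9.DT Pool.Agent.Helper9K9.LF

variable {k : Type u} [Field k] {𝒱 : VarClass k} {ops : CycleOps 𝒱}
variable {W : WeilCohomology.{u, v} ops}

lemma act_diag (X : 𝒱.Obj) (x : W.H X) : act W X (W.push (diag X) 1) x = x := by
  rw [act_eq, corr_diag, one_mul]

/-- The motive of `X`. -/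
theorem diag_facts (X : 𝒱.Obj) : IsMotive W X (W.push (diag X) 1) ∧
    (SignAlg W X (W.push (diag X) 1) ↔ SignProjAlgebraic W X 0) := by
  refine ⟨⟨algSpan_push _ one_mem_algSpan, fun x => by rw [act_diag, act_diag]⟩, ?_⟩
  constructor
  · rintro ⟨γ, hγ, h0, h1⟩
    exact ⟨γ, hγ, fun x hx => by rw [h0 x hx, act_diag], fun x hx => h1 x hx⟩
  · rintro ⟨γ, hγ, h0, h1⟩
    exact ⟨γ, hγ, fun x hx => by rw [h0 x hx, act_diag], fun x hx => h1 x hx⟩

end Pool.Agent.Helper3K9.NT
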