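import Pool.Agent.Helper3K9.NT.Act
import Pool.Agent.Helper3K9.NT.Comp

set_option autoImplicit false

open CategoryTheory AlgebraicGeometry

universe u v w

namespace Pool.Agent.Helper3K9.NT

open Pool.Agent.H914 VarClass Obj WeilCohomology Pool.Agent.Helper9K9.DT Pool.Agent.Helper9K9.LF

theorem fin (hTEN : S_TEN.{u, v}) (hCON : S_CON.{u, v}) (hSWAP : S_SWAP.{u, v})
    (hBSC : S_BSC.{u, v}) (hBIG : S_BIG.{u, v}) : S_FINAL.{u, v} := by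
  intro k _ 𝒱 ops W
  refine ⟨fun X Y p q hp hq => ⟨?_, fun h0 h1 => ⟨fun h => ⟨?_, ?_⟩, fun h => ?_⟩⟩, ?_⟩
  · rw [isMotive_iff] at hp hq ⊢
    refine ⟨tens_mem hp.1 hq.1, ?_⟩
    rw [hTEN W X Y p q (algSpan_le_par hp.1) (algSpan_le_par hq.1), opT_mul, hp.2, hq.2]
  · exact bwd hTEN hCON W X Y p q hp.1 hq h1 h
  · exact bwd hTEN hCON W Y X q p hq.1 hp h0 (hSWAP W X Y p q hp.1 hq.1 h)
  · exact fwd hTEN W X Y p q hp.1 hq.1 h.1 h.2
  · intro X p m a hp hM hN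
    exact ⟨hBIG W X m p a hp hM hN, hBSC W X m p a hp.1⟩

end Pool.Agent.Helper3K9.NT
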