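import Pool.Agent.Helper3K9.NT.Basic2

set_option autoImplicit false

open CategoryTheory AlgebraicGeometry

universe u v w

namespace Pool.Agent.Helper3K9.NT

open Pool.Agent.H914 VarClass Obj WeilCohomology Pool.Agent.Helper9K9.DT Pool.Agent.Helper9K9.LF

variable {k : Type u} [Field k] {𝒱 : VarClass k} {ops : CycleOps 𝒱}
variable {W : WeilCohomology.{u, v} ops} {X Y : 𝒱.Obj}

lemma corr_sub' (c d : W.H (X.prod Y)) :
    W.corr (c - d) = W.corr c - W.corr d := by
  have h := corr_add W (c - d) d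
  rw [sub_add_cancel] at h
  rw [h, add_sub_cancel_right]

lemma po_eq : po W X = 1 - pe W X := eq_sub_of_add_eq' pe_add_po

lemma sub_mul_pe (f : Module.End W.K (W.H X)) : f - f * pe W X = f * po W X := by
  rw [po_eq, mul_sub, mul_one]

theorem fwd : S_TEN.{u, v} → S_FWD.{u, v} := by
  intro hTEN k _ 𝒱 ops W X Y p q hp hq h1 h2
  rw [signAlg_iff] at h1 h2 ⊢
  obtain ⟨c, hc, hc'⟩ := h1
  obtain ⟨d, hd, hd'⟩ := h2
  refine ⟨tens W c d + tens W (p - c) (q - d), Submodule.add_mem _ (tens_mem hc hd)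
    (tens_mem (Submodule.sub_mem _ hp hc) (Submodule.sub_mem _ hq hd)), ?_⟩
  have e1 : W.corr (p - c) = W.corr p * po W X := by
    rw [corr_sub', hc', sub_mul_pe]
  have e2 : W.corr (q - d) = W.corr q * po W Y := by
    rw [corr_sub', hd', sub_mul_pe]
  rw [corr_add, hTEN W X Y c d (algSpan_le_par hc) (algSpan_le_par hd),
    hTEN W X Y (p - c) (q - d) (algSpan_le_par (Submodule.sub_mem _ hp hc))
      (algSpan_le_par (Submodule.sub_mem _ hq hd)),
    hTEN W X Y p q (algSpan_le_par hp) (algSpan_le_par hq), e1, e2, hc', hd', pe_prod, mul_add,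
    opT_mul, opT_mul]

end Pool.Agent.Helper3K9.NT
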