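import Pool.Agent.Helper3K9.NT.Defs
import Pool.Agent.Helper9K9.DT.Sign
import Pool.Agent.H447R3.NumB
import Pool.Agent.W534.QOp

/-!
# Tensor products and Schur functors of noncommutative motives: the statements of the steps

NT: MP_eadf0f_ag. `sg` is the operator `(-1) ^ i` on `H^i`, `Ev z` means that `z` preserves the
parity, `opT f g` is the operator `f ⊗ g` of `H(X × Y)` WITHOUT signs, `ins m j z` is `z` on the
factor `j` of `H(X ^ (m + 1))` without signs, `R σ` is the pull-back under the permutation `σ`.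
-/

set_option autoImplicit false

open CategoryTheory AlgebraicGeometry

universe u v w

namespace Pool.Agent.Helper3K9.NT

open Pool.Agent.H914 VarClass Obj WeilCohomology Pool.Agent.Helper9K9.DT

section Defs

variable {k : Type u} [Field k] {𝒱 : VarClass k} {ops : CycleOps 𝒱}

/-- The operator `(-1) ^ i` on `H^i(X)`. -/
noncomputable def sg (W : WeilCohomology.{u, v} ops) (X : 𝒱.Obj) : Module.End W.K (W.H X) :=
  Pool.Agent.H914.par (W.isInternal X)

/-- The operator `z` preserves the parity. -/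
def Ev (W : WeilCohomology.{u, v} ops) (X : 𝒱.Obj) (z : Module.End W.K (W.H X)) : Prop :=
  Commute (sg W X) z

/-- The Kunneth isomorphism. -/
noncomputable def kun (W : WeilCohomology.{u, v} ops) (X Y : 𝒱.Obj) :
    TensorProduct W.K (W.H X) (W.H Y) ≃ₗ[W.K] W.H (X.prod Y) :=
  LinearEquiv.ofBijective _ (W.isKunneth X Y).bijective

/-- The operator `f ⊗ g` on `H(X × Y)`, without signs. -/
noncomputable def opT (W : WeilCohomology.{u, v} ops) {X Y : 𝒱.Obj} (f : Module.End W.K (W.H X))
    (g : Module.End W.K (W.H Y)) : Module.End W.K (W.H (X.prod Y)) :=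
  (kun W X Y).toLinearMap ∘ₗ TensorProduct.map f g ∘ₗ (kun W X Y).symm.toLinearMap

/-- The operator `z` on the factor `j` of `H(X ^ (m + 1))`, without signs. -/
noncomputable def ins (W : WeilCohomology.{u, v} ops) (X : 𝒱.Obj) :
    (m : ℕ) → Fin (m + 1) → Module.End W.K (W.H X) → Module.End W.K (W.H (pw X m))
  | 0 => fun _ z => z
  | m + 1 => fun j z =>
    Fin.cases (motive := fun _ => Module.End W.K (W.H (X.prod (pw X m))))
      (opT W (Y := pw X m) z 1) (fun i => opT W (X := X) 1 (ins W X m i z)) j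

/-- The action of the permutation `σ` on `H(X ^ (m + 1))`: the pull-back. -/
noncomputable def R (W : WeilCohomology.{u, v} ops) (X : 𝒱.Obj) (m : ℕ)
    (σ : Equiv.Perm (Fin (m + 1))) : Module.End W.K (W.H (pw X m)) :=
  (W.map (perm X m σ)).toLinearMap

end Defs

/-! ## Linear algebra -/

/-- SCA (Mathlib only, 20 min). An operator of `E V` which commutes with all even operators
commuting with `E` is a scalar on the even part and a scalar on the odd part. (Take for `z` the
operators `E P₊ y E P₊` and `E P₋ y E P₋`, where `P₊ = (1 + s) / 2`, `P₋ = (1 - s) / 2`; for example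
rank one operators with a functional.) -/
def S_SCA : Prop :=
  ∀ (K : Type v) [Field K] [CharZero K] (V : Type v) [AddCommGroup V] [Module K V]
    [Module.Finite K V] (s E C : Module.End K V),
    s * s = 1 → Commute s E → E * E = E → Commute s C → C * E = C → E * C = C →
    (∀ z, Commute s z → Commute E z → Commute C z) →
    ∃ α β : K, C = α • (E * ((2 : K)⁻¹ • (1 + s))) + β • (E * ((2 : K)⁻¹ • (1 - s)))

/-- POS (Mathlib only, 25 min). `D = ∑ e j` for commuting idempotents is killed by
`∏ (x - i)`, `i ≤ n`, so `T D = ∑ i • (T P i)` with the spectral projectors `P i` of `D` (polynomials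
in `D`, for example Lagrange), which commute with `T`; `T P i` is an idempotent, its trace is the
natural number `r i` (the rank). So the trace is `∑ i * r i`, and if it vanishes then `T P i = 0` for
`i > 0`. -/
def S_POS : Prop :=
  ∀ (K : Type v) [Field K] [CharZero K] (U : Type v) [AddCommGroup U] [Module K U]
    [Module.Finite K U] (n : ℕ) (e : Fin n → Module.End K U) (T : Module.End K U),
    T * T = T → (∀ j, e j * e j = e j) → (∀ i j, Commute (e i) (e j)) → Commute T (∑ j, e j) →
    ∃ t : ℕ, LinearMap.trace K U (T * ∑ j, e j) = (t : K) ∧ (t = 0 → T * ∑ j, e j = 0)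

/-- ABS (Mathlib only, given SCA, POS; 40 min). Write `D z = ∑ j, ins j z`. Then
`D (z y - y z) = D z * D y - D y * D z`. For even `z` commuting with `E`: the trace of
`s * (C z - z C) * y` is the trace of `S T (D z D y - D y D z)`, which is zero as `S T = ε T` commutes
with `D z`; the trace form is nondegenerate on the even operators, so `C` commutes with `z`. In the
same way `C E = C = E C` by `T ins j E = T = ins j E T`. So SCA gives `α` and `β`. With
`E₊ = E (1 + s) / 2`, `E₋ = E (1 - s) / 2`: trace of `s C E₊` is `α b₊`, of `s C E₋` is `- β b₋`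
(`b₊`, `b₋` the ranks, natural numbers) and by POS they are `ε t₊`, `ε t₋` with natural numbers
`t₊`, `t₋`, not both zero as `T D(E₊) + T D(E₋) = T D(E) = n T ≠ 0`. If `α = β` and `b₊`, `b₋` are
positive then `t₊ b₋ + t₋ b₊ = 0`, a contradiction. -/
def S_ABS : Prop :=
  ∀ (K : Type v) [Field K] [CharZero K] (V U : Type v) [AddCommGroup V] [Module K V]
    [Module.Finite K V] [AddCommGroup U] [Module K U] [Module.Finite K U]
    (s E C : Module.End K V) (S T : Module.End K U) (n : ℕ)
    (i : Fin n → (Module.End K V →ₐ[K] Module.End K U)) (ε : K),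
    0 < n → s * s = 1 → Commute s E → E * E = E → Commute s C → T * T = T → T ≠ 0 →
    (ε = 1 ∨ ε = -1) → S * T = ε • T →
    (∀ a b, a ≠ b → ∀ y z, Commute (i a y) (i b z)) →
    (∀ j, T * i j E = T ∧ i j E * T = T) →
    (∀ z, Commute s z → Commute E z → Commute T (∑ j, i j z)) →
    (∀ y, Commute s y → LinearMap.trace K V (s * C * y) =
      LinearMap.trace K U (S * T * ∑ j, i j y)) →
    (∃ α β : K, α ≠ β ∧
      C = α • (E * ((2 : K)⁻¹ • (1 + s))) + β • (E * ((2 : K)⁻¹ • (1 - s)))) ∨
    E * (1 + s) = 0 ∨ E * (1 - s) = 0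

/-! ## Correspondences -/

/-- TEN (25 min). The action of `c ⊗ d` for even classes. By additivity and Kunneth reduce to
`c = box a b`, `d = box a' b'` and apply to `box x y` with homogeneous classes (`box_ext` in
`NT/Basic.lean`); the sign is `1` as the degrees of `a x` and `a' y` have to be even. -/
def S_TEN : Prop :=
  ∀ {k : Type u} [Field k] {𝒱 : VarClass k} {ops : CycleOps 𝒱} (W : WeilCohomology.{u, v} ops)
    (X Y : 𝒱.Obj) (c : W.H (X.prod X)) (d : W.H (Y.prod Y)),
    c ∈ par W (X.prod X) 0 → d ∈ par W (Y.prod Y) 0 →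
    W.corr (tens W c d) = opT W (W.corr c) (W.corr d)

/-- CON (15 min). Partial supertrace of `c ⊗ d`: by `cMap` the class `tens c d` is pulled back to
`map snd c * map fst (map diag d)`; then `W.push_snd` and `trace_par_corr`. -/
def S_CON : Prop :=
  ∀ {k : Type u} [Field k] {𝒱 : VarClass k} {ops : CycleOps 𝒱} (W : WeilCohomology.{u, v} ops)
    (X Y : 𝒱.Obj) (c : W.H (X.prod X)) (d : W.H (Y.prod Y)), d ∈ par W (Y.prod Y) 0 →
    contr W X Y 1 (tens W c d) = (LinearMap.trace W.K (W.H Y) (sg W Y * W.corr d)) • c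

/-- COMP (15 min). The operators induced by combinations of cycles of all codimensions are closed
under composition: `corr_comp` and linearity. -/
def S_COMP : Prop :=
  ∀ {k : Type u} [Field k] {𝒱 : VarClass k} {ops : CycleOps 𝒱} (W : WeilCohomology.{u, v} ops)
    (X Y Z : 𝒱.Obj) (c : W.H (X.prod Y)) (d : W.H (Y.prod Z)), c ∈ algSpan W (X.prod Y) →
    d ∈ algSpan W (Y.prod Z) → ∃ e ∈ algSpan W (X.prod Z), W.corr e = W.corr d ∘ₗ W.corr c

/-- SWAP (20 min, given COMP, TEN). Conjugate by the pull-backs under the exchange of the factors,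
which are algebraic (`Pool.Agent.W534.corr_graph`) and preserve the parity. -/
def S_SWAP : Prop :=
  ∀ {k : Type u} [Field k] {𝒱 : VarClass k} {ops : CycleOps 𝒱} (W : WeilCohomology.{u, v} ops)
    (X Y : 𝒱.Obj) (p : W.H (X.prod X)) (q : W.H (Y.prod Y)), IsAlg W (X.prod X) p →
    IsAlg W (Y.prod Y) q → SignAlg W (X.prod Y) (tens W p q) → SignAlg W (Y.prod X) (tens W q p)

/-- FWD (20 min, given TEN). `γ = c ⊗ d + (p - c) ⊗ (q - d)` for the classes `c`, `d` of the two
projectors. -/
def S_FWD : Prop :=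
  ∀ {k : Type u} [Field k] {𝒱 : VarClass k} {ops : CycleOps 𝒱} (W : WeilCohomology.{u, v} ops)
    (X Y : 𝒱.Obj) (p : W.H (X.prod X)) (q : W.H (Y.prod Y)), IsAlg W (X.prod X) p →
    IsAlg W (Y.prod Y) q → SignAlg W X p → SignAlg W Y q → SignAlg W (X.prod Y) (tens W p q)

/-- BWD (35 min, given TEN, CON). Let `s₊`, `s₋`, `t₊`, `t₋` be the classes inducing the projectors
to the even and odd parts of `p H(X)` and `q H(Y)` (`Pool.Agent.H447.exists_corr`; they are even
classes). By `corrL_inj` and TEN the class of the projector of `p ⊗ q` is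
`s₊ ⊗ t₊ + s₋ ⊗ t₋`, and CON gives that `d₊ • s₊ - d₋ • s₋` is algebraic (`contr_mem`), `d₊`, `d₋` the
ranks, natural numbers, not both zero; as `p = s₊ + s₋` also `s₊` is algebraic. -/
def S_BWD : Prop :=
  ∀ {k : Type u} [Field k] {𝒱 : VarClass k} {ops : CycleOps 𝒱} (W : WeilCohomology.{u, v} ops)
    (X Y : 𝒱.Obj) (p : W.H (X.prod X)) (q : W.H (Y.prod Y)), IsAlg W (X.prod X) p →
    IsMotive W Y q → Nonzero W Y q → SignAlg W (X.prod Y) (tens W p q) → SignAlg W X p

/-- ADJ (30 min). The contraction is the adjoint of `y ↦ y ⊗ 1` for the supertrace. By Kunneth reduce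
to `Γ = box (box a A) (box b B)` with homogeneous classes and use `contr_box` (`δ = 1`); both operators
have rank one (`LinearMap.trace_smulRight`), and both sides are
`(-1) ^ (|A| |b|) * tr (a * y b) * tr (A * B)`. -/
def S_ADJ : Prop :=
  ∀ {k : Type u} [Field k] {𝒱 : VarClass k} {ops : CycleOps 𝒱} (W : WeilCohomology.{u, v} ops)
    (X Q : 𝒱.Obj) (Γ : W.H ((X.prod Q).prod (X.prod Q))) (y : Module.End W.K (W.H X)),
    Ev W X y → LinearMap.trace W.K (W.H X) (sg W X * W.corr (contr W X Q 1 Γ) * y) =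
      LinearMap.trace W.K (W.H (X.prod Q)) (sg W (X.prod Q) * W.corr Γ * opT W y 1)

/-! ## Powers -/

/-- REL (20 min). The sign of a reordering depends only on the parities. (Prove it for lists of
indices by `List.Perm` induction with `par_comm`.) -/
def S_REL : Prop :=
  ∀ {k : Type u} [Field k] {𝒱 : VarClass k} {ops : CycleOps 𝒱} (W : WeilCohomology.{u, v} ops)
    (Y : 𝒱.Obj) (n : ℕ) (π : Fin n → ℕ) (σ : Equiv.Perm (Fin n)),
    ∃ κ : W.K, ∀ x : Fin n → W.H Y, (∀ i, x i ∈ par W Y (π i)) →
      (List.ofFn fun i => x (σ i)).prod = κ • (List.ofFn x).prod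

/-- SPN (15 min). The external products of homogeneous classes span `H(X ^ (m + 1))`. -/
def S_SPN : Prop :=
  ∀ {k : Type u} [Field k] {𝒱 : VarClass k} {ops : CycleOps 𝒱} (W : WeilCohomology.{u, v} ops)
    (X : 𝒱.Obj) (m : ℕ) (V : Type v) [AddCommGroup V] [Module W.K V]
    (L L' : W.H (pw X m) →ₗ[W.K] V),
    (∀ (π : Fin (m + 1) → ℕ) (a : Fin (m + 1) → W.H X), (∀ i, a i ∈ par W X (π i)) →
      L (ext W X a) = L' (ext W X a)) → L = L'

/-- INA (15 min). `ins m j` is an algebra homomorphism, they commute for different `j`, and even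
operators go to even operators. Induction on `m` with the lemmas on `opT` in `NT/Basic.lean`. -/
def S_INA : Prop :=
  ∀ {k : Type u} [Field k] {𝒱 : VarClass k} {ops : CycleOps 𝒱} (W : WeilCohomology.{u, v} ops)
    (X : 𝒱.Obj) (m : ℕ),
    (∃ i : Fin (m + 1) → (Module.End W.K (W.H X) →ₐ[W.K] Module.End W.K (W.H (pw X m))),
      ∀ j z, i j z = ins W X m j z) ∧
    (∀ a b, a ≠ b → ∀ y z, Commute (ins W X m a y) (ins W X m b z)) ∧
    ∀ j z, Ev W X z → Ev W (pw X m) (ins W X m j z)

/-- INE (15 min). The action of `ins m j z` on external products. Induction with `ext_succ`. -/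
def S_INE : Prop :=
  ∀ {k : Type u} [Field k] {𝒱 : VarClass k} {ops : CycleOps 𝒱} (W : WeilCohomology.{u, v} ops)
    (X : 𝒱.Obj) (m : ℕ) (j : Fin (m + 1)) (z : Module.End W.K (W.H X))
    (a : Fin (m + 1) → W.H X),
    ins W X m j z (ext W X a) = ext W X (Function.update a j (z (a j)))

/-- TPW (15 min, given TEN). The action of the tensor power on external products, and it is an
algebraic even class. -/
def S_TPW : Prop :=
  ∀ {k : Type u} [Field k] {𝒱 : VarClass k} {ops : CycleOps 𝒱} (W : WeilCohomology.{u, v} ops)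
    (X : 𝒱.Obj) (m : ℕ) (p : W.H (X.prod X)), IsAlg W (X.prod X) p →
    tpow W X p m ∈ algSpan W ((pw X m).prod (pw X m)) ∧
    ∀ a : Fin (m + 1) → W.H X,
      W.corr (tpow W X p m) (ext W X a) = ext W X fun i => W.corr p (a i)

/-- PRM (20 min). `perm` composes: `perm σ ≫ perm τ = perm (σ * τ)`, since
`toPw m f ≫ pr X m i = f i` and morphisms to `X ^ (m + 1)` with the same components are equal (look
for a `hom_ext` of `SmVar.prod`, or of `Obj.lift`; if there is none then show that the two pull-backs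
agree on external products and use SPN). Pull-backs preserve the parity. -/
def S_PRM : Prop :=
  ∀ {k : Type u} [Field k] {𝒱 : VarClass k} {ops : CycleOps 𝒱} (W : WeilCohomology.{u, v} ops)
    (X : 𝒱.Obj) (m : ℕ),
    R W X m 1 = 1 ∧ (∀ σ τ, R W X m (σ * τ) = R W X m σ * R W X m τ) ∧
    (∀ σ, Ev W (pw X m) (R W X m σ)) ∧
    ∀ (σ : Equiv.Perm (Fin (m + 1))) (a : Fin (m + 1) → W.H X),
      R W X m σ (ext W X a) = (List.ofFn fun i => W.map (pr X m (σ i)) (a i)).prod

/-- RSG (15 min, given REL, PRM). The action of a permutation on the external products. -/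
def S_RSG : Prop :=
  ∀ {k : Type u} [Field k] {𝒱 : VarClass k} {ops : CycleOps 𝒱} (W : WeilCohomology.{u, v} ops)
    (X : 𝒱.Obj) (m : ℕ) (π : Fin (m + 1) → ℕ) (σ : Equiv.Perm (Fin (m + 1))),
    ∃ κ : W.K, ∀ a : Fin (m + 1) → W.H X, (∀ i, a i ∈ par W X (π i)) →
      R W X m σ (ext W X a) = κ • ext W X fun i => a (σ.symm i)

/-- PIN (15 min, given RSG, INE, SPN). Permutations permute the factors. -/
def S_PIN : Prop :=
  ∀ {k : Type u} [Field k] {𝒱 : VarClass k} {ops : CycleOps 𝒱} (W : WeilCohomology.{u, v} ops)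
    (X : 𝒱.Obj) (m : ℕ) (σ : Equiv.Perm (Fin (m + 1))) (j : Fin (m + 1))
    (z : Module.End W.K (W.H X)), Ev W X z →
    R W X m σ * ins W X m j z = ins W X m (σ j) z * R W X m σ

/-- TPI (20 min, given TPW, INE, SPN, RSG). The operator `P` of the tensor power absorbs `corr p` in
each factor, and commutes with the permutations and with the operators of one factor which commute
with `corr p`. -/
def S_TPI : Prop :=
  ∀ {k : Type u} [Field k] {𝒱 : VarClass k} {ops : CycleOps 𝒱} (W : WeilCohomology.{u, v} ops)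
    (X : 𝒱.Obj) (m : ℕ) (p : W.H (X.prod X)), IsMotive W X p →
    (∀ j, W.corr (tpow W X p m) * ins W X m j (W.corr p) = W.corr (tpow W X p m) ∧
      ins W X m j (W.corr p) * W.corr (tpow W X p m) = W.corr (tpow W X p m)) ∧
    (∀ σ, Commute (R W X m σ) (W.corr (tpow W X p m))) ∧
    ∀ j z, Commute (W.corr p) z → Commute (W.corr (tpow W X p m)) (ins W X m j z)

/-- ACT (15 min). The action of `schur`: pull-back under `1 × f` is composition with `map f`
(Kunneth induction and `W.push_snd`). Also it is algebraic if `p` is (given TPW for that). -/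
def S_ACT : Prop :=
  ∀ {k : Type u} [Field k] {𝒱 : VarClass k} {ops : CycleOps 𝒱} (W : WeilCohomology.{u, v} ops)
    (X : 𝒱.Obj) (m : ℕ) (p : W.H (X.prod X)) (a : Equiv.Perm (Fin (m + 1)) → W.K),
    W.corr (schur W X p m a) = ∑ σ, a σ • (R W X m σ * W.corr (tpow W X p m))

/-- BSC (20 min, given FWD, ACT, TPW, PRM, COMP). The projector for `schur` from the one for `p`:
the tensor powers by FWD and induction, then compose with the permutations (algebraic by
`Pool.Agent.W534.corr_graph`, even by PRM). -/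
def S_BSC : Prop :=
  ∀ {k : Type u} [Field k] {𝒱 : VarClass k} {ops : CycleOps 𝒱} (W : WeilCohomology.{u, v} ops)
    (X : 𝒱.Obj) (m : ℕ) (p : W.H (X.prod X)) (a : Equiv.Perm (Fin (m + 1)) → W.K),
    IsAlg W (X.prod X) p → SignAlg W X p → SignAlg W (pw X m) (schur W X p m a)

/-- BZ (10 min, given ACT, PRM). The case of one factor: `schur` is a nonzero multiple of `p`. -/
def S_BZ : Prop :=
  ∀ {k : Type u} [Field k] {𝒱 : VarClass k} {ops : CycleOps 𝒱} (W : WeilCohomology.{u, v} ops)
    (X : 𝒱.Obj) (p : W.H (X.prod X)) (a : Equiv.Perm (Fin 1) → W.K),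
    Nonzero W (pw X 0) (schur W X p 0 a) → SignAlg W (pw X 0) (schur W X p 0 a) → SignAlg W X p

/-- BIG (helper3, given ABS, ADJ, COMP, INA, PIN, TPI, ACT, PRM, BZ). -/
def S_BIG : Prop :=
  ∀ {k : Type u} [Field k] {𝒱 : VarClass k} {ops : CycleOps 𝒱} (W : WeilCohomology.{u, v} ops)
    (X : 𝒱.Obj) (m : ℕ) (p : W.H (X.prod X)) (a : Equiv.Perm (Fin (m + 1)) → W.K),
    IsMotive W X p → IsMotive W (pw X m) (schur W X p m a) →
    Nonzero W (pw X m) (schur W X p m a) → SignAlg W (pw X m) (schur W X p m a) → SignAlg W X p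

/-- The final statement. -/
def S_FINAL : Prop :=
  ∀ {k : Type u} [Field k] {𝒱 : VarClass k} {ops : CycleOps 𝒱} (W : WeilCohomology.{u, v} ops),
    (∀ (X Y : 𝒱.Obj) (p : W.H (X.prod X)) (q : W.H (Y.prod Y)), IsMotive W X p →
      IsMotive W Y q → IsMotive W (X.prod Y) (tens W p q) ∧
      (Nonzero W X p → Nonzero W Y q →
        (SignAlg W (X.prod Y) (tens W p q) ↔ SignAlg W X p ∧ SignAlg W Y q))) ∧
    ∀ (X : 𝒱.Obj) (p : W.H (X.prod X)) (m : ℕ) (a : Equiv.Perm (Fin (m + 1)) → W.K),
      IsMotive W X p → IsMotive W (pw X m) (schur W X p m a) →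
      Nonzero W (pw X m) (schur W X p m a) →
      (SignAlg W (pw X m) (schur W X p m a) ↔ SignAlg W X p)

end Pool.Agent.Helper3K9.NT
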